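import Mathlib

/-!
# Strong amalgamation of finite groups (permutational products)
-/

set_option autoImplicit false

namespace Pool.Agent.Lib.MP_b18e8e_lc_Diamond

section

variable {E P : Type*} [Group E] [Group P] (i : E →* P)

/-- The map `(s, e) ↦ (representative of s) * i e`. -/
noncomputable def dec (x : (P ⧸ i.range) × E) : P := Quotient.out x.1 * i x.2

theorem dec_coset (x : (P ⧸ i.range) × E) : ((dec i x : P) : P ⧸ i.range) = x.1 := by
  conv_rhs => rw [← QuotientGroup.out_eq' x.1]
  rw [dec, QuotientGroup.eq]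
  refine ⟨(x.2)⁻¹, ?_⟩
  rw [map_inv]
  group

theorem dec_bijective (hi : Function.Injective i) : Function.Bijective (dec i) := by
  constructor
  · intro x y hxy
    have h1 : x.1 = y.1 := by rw [← dec_coset i x, ← dec_coset i y, hxy]
    rw [dec, dec, h1] at hxy
    exact Prod.ext h1 (hi (mul_left_cancel hxy))
  · intro p
    have : (Quotient.out (p : P ⧸ i.range))⁻¹ * p ∈ i.range := by
      rw [← QuotientGroup.eq, QuotientGroup.out_eq']
    obtain ⟨e, he⟩ := this
    refine ⟨((p : P ⧸ i.range), e), ?_⟩
    rw [dec, he]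
    group

/-- The decomposition of `P` along `i`. -/
noncomputable def decEquiv (hi : Function.Injective i) : (P ⧸ i.range) × E ≃ P :=
  Equiv.ofBijective (dec i) (dec_bijective i hi)

theorem decEquiv_apply (hi : Function.Injective i) (x : (P ⧸ i.range) × E) :
    decEquiv i hi x = dec i x := rfl

/-- right multiplication by `p⁻¹` on the decomposition. -/
noncomputable def rm (hi : Function.Injective i) (p : P) (x : (P ⧸ i.range) × E) :
    (P ⧸ i.range) × E := (decEquiv i hi).symm (decEquiv i hi x * p⁻¹)

theorem rm_mul (hi : Function.Injective i) (p q : P) (x : (P ⧸ i.range) × E) :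
    rm i hi (p * q) x = rm i hi p (rm i hi q x) := by
  simp only [rm, Equiv.apply_symm_apply, mul_inv_rev, mul_assoc]

theorem rm_one (hi : Function.Injective i) (x : (P ⧸ i.range) × E) :
    rm i hi 1 x = x := by
  simp [rm]

theorem rm_E (hi : Function.Injective i) (e : E) (x : (P ⧸ i.range) × E) :
    rm i hi (i e) x = (x.1, x.2 * e⁻¹) := by
  rw [rm, Equiv.symm_apply_eq, decEquiv_apply, decEquiv_apply, dec, dec, map_mul, map_inv,
    mul_assoc]

theorem dec_rm (hi : Function.Injective i) (p : P) (x : (P ⧸ i.range) × E) :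
    dec i (rm i hi p x) = dec i x * p⁻¹ := by
  rw [← decEquiv_apply i hi, rm, Equiv.apply_symm_apply, decEquiv_apply]

theorem rm_injective (hi : Function.Injective i) (p : P) (x : (P ⧸ i.range) × E)
    (h : rm i hi p x = x) : p = 1 := by
  have := dec_rm i hi p x
  rw [h] at this
  have h2 : p⁻¹ = 1 := by
    rw [eq_comm, mul_eq_left] at this
    exact this
  exact inv_eq_one.mp h2

end

/-- Strong amalgamation for (finite) groups. -/
theorem exists_amalgam {E P Q : Type} [Group E] [Group P] [Group Q] [Finite E] [Finite P]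
    [Finite Q] (i : E →* P) (k : E →* Q) (hi : Function.Injective i)
    (hk : Function.Injective k) :
    ∃ (R : Type) (_ : Group R) (_ : Finite R) (j : P →* R) (l : Q →* R),
      Function.Injective j ∧ Function.Injective l ∧ (∀ e, j (i e) = l (k e)) ∧
      ∀ B : Subgroup P, i.range ≤ B → ∀ p, j p ∈ B.map j ⊔ l.range → p ∈ B := by
  classical
  let Ω : Type := (P ⧸ i.range) × (Q ⧸ k.range) × E
  let j : P →* Equiv.Perm Ω :=
    { toFun := fun p =>
        { toFun := fun ω => ((rm i hi p (ω.1, ω.2.2)).1, ω.2.1, (rm i hi p (ω.1, ω.2.2)).2)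
          invFun := fun ω =>
            ((rm i hi p⁻¹ (ω.1, ω.2.2)).1, ω.2.1, (rm i hi p⁻¹ (ω.1, ω.2.2)).2)
          left_inv := by
            intro ω
            simp only [Prod.mk.eta, ← rm_mul, inv_mul_cancel, rm_one]
          right_inv := by
            intro ω
            simp only [Prod.mk.eta, ← rm_mul, mul_inv_cancel, rm_one] }
      map_one' := by
        ext1 ω
        simp [rm_one]
      map_mul' := by
        intro p q
        ext1 ω
        simp [rm_mul, Equiv.Perm.mul_apply] }
  let l : Q →* Equiv.Perm Ω :=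
    { toFun := fun q =>
        { toFun := fun ω => (ω.1, rm k hk q ω.2)
          invFun := fun ω => (ω.1, rm k hk q⁻¹ ω.2)
          left_inv := by
            intro ω
            simp only [← rm_mul, inv_mul_cancel, rm_one]
            rfl
          right_inv := by
            intro ω
            simp only [← rm_mul, mul_inv_cancel, rm_one]
            rfl }
      map_one' := by
        ext1 ω
        simp [rm_one]
      map_mul' := by
        intro p q
        ext1 ω
        simp [rm_mul, Equiv.Perm.mul_apply] }
  have hjdef : ∀ p (ω : Ω), j p ω =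
      ((rm i hi p (ω.1, ω.2.2)).1, ω.2.1, (rm i hi p (ω.1, ω.2.2)).2) := fun p ω => rfl
  have hldef : ∀ q (ω : Ω), l q ω = (ω.1, rm k hk q ω.2) := fun q ω => rfl
  let ω₀ : Ω := (((decEquiv i hi).symm 1).1, ((1 : Q) : Q ⧸ k.range), ((decEquiv i hi).symm 1).2)
  have hω₀ : dec i (ω₀.1, ω₀.2.2) = 1 := by
    change dec i ((decEquiv i hi).symm 1) = 1
    rw [← decEquiv_apply i hi, Equiv.apply_symm_apply]
  have hjinj : Function.Injective j := by
    rw [injective_iff_map_eq_one]
    intro p hp
    have h1 : j p ω₀ = ω₀ := by rw [hp]; rfl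
    rw [hjdef] at h1
    apply rm_injective i hi p (ω₀.1, ω₀.2.2)
    have ha := congrArg (fun ω : Ω => ω.1) h1
    have hb := congrArg (fun ω : Ω => ω.2.2) h1
    exact Prod.ext ha hb
  have hlinj : Function.Injective l := by
    rw [injective_iff_map_eq_one]
    intro q hq
    have h1 : l q ω₀ = ω₀ := by rw [hq]; rfl
    rw [hldef] at h1
    exact rm_injective k hk q ω₀.2 (congrArg (fun ω : Ω => ω.2) h1)
  refine ⟨Equiv.Perm Ω, inferInstance, inferInstance, j, l, hjinj, hlinj, ?_, ?_⟩
  · intro e
    ext1 ω
    rw [hjdef, hldef, rm_E, rm_E]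
  · intro B hB p hp
    -- the invariant
    let κ : Ω → P ⧸ B := fun ω => ((dec i (ω.1, ω.2.2) : P) : P ⧸ B)
    have hinv : B.map j ⊔ l.range ≤
        { carrier := {g | ∀ ω, κ (g ω) = κ ω}
          mul_mem' := by
            intro a b ha hb ω
            rw [Equiv.Perm.mul_apply, ha, hb]
          one_mem' := by
            intro ω; rfl
          inv_mem' := by
            intro a ha ω
            have := ha (a⁻¹ ω)
            have h2 : a (a⁻¹ ω) = ω := by
              rw [← Equiv.Perm.mul_apply, mul_inv_cancel]; rfl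
            rw [h2] at this
            exact this.symm : Subgroup (Equiv.Perm Ω) } := by
      rw [sup_le_iff]
      constructor
      · rintro _ ⟨b, hb, rfl⟩ ω
        change ((dec i (rm i hi b (ω.1, ω.2.2)) : P) : P ⧸ B) = _
        rw [dec_rm, QuotientGroup.eq]
        simpa using hb
      · rintro _ ⟨q, rfl⟩ ω
        have hs : ∀ (s : P ⧸ i.range) (e e' : E),
            ((dec i (s, e) : P) : P ⧸ B) = ((dec i (s, e') : P) : P ⧸ B) := by
          intro s e e'
          rw [QuotientGroup.eq, dec, dec]
          apply hB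
          refine ⟨e⁻¹ * e', ?_⟩
          rw [map_mul, map_inv]
          group
        exact hs _ _ _
    have h1 := hinv hp ω₀
    change ((dec i (rm i hi p (ω₀.1, ω₀.2.2)) : P) : P ⧸ B) = ((dec i (ω₀.1, ω₀.2.2) : P) : P ⧸ B)
      at h1
    rw [dec_rm, hω₀, QuotientGroup.eq] at h1
    simpa using h1

end Pool.Agent.Lib.MP_b18e8e_lc_Diamond
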