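import Pool.Agent.Lib.MP_b18e8e_lc_Diamond.Gen

/-!
# Finite conditions for extending a countable group
-/

set_option autoImplicit false

namespace Pool.Agent.Lib.MP_b18e8e_lc_Diamond

/-- A finite group structure on a finite subset of `K ⊕ ℕ`, compatible with `K`. -/
structure Cond (K : Type) [Group K] where
  /-- the carrier -/
  U : Finset (K ⊕ ℕ)
  /-- the group structure -/
  grp : Group U
  one_mem : Sum.inl 1 ∈ U
  inv_mem : ∀ a : K, Sum.inl a ∈ U → Sum.inl a⁻¹ ∈ U
  compat : ∀ (a b : K) (ha : Sum.inl a ∈ U) (hb : Sum.inl b ∈ U), ∃ h : Sum.inl (a * b) ∈ U,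
    (⟨Sum.inl a, ha⟩ * ⟨Sum.inl b, hb⟩ : U) = ⟨Sum.inl (a * b), h⟩

namespace Cond

variable {K : Type} [Group K]

instance (c : Cond K) : Group c.U := c.grp

/-- The inclusion of carriers. -/
def inc {c d : Cond K} (h : c.U ⊆ d.U) (x : c.U) : d.U := ⟨x.1, h x.2⟩

instance : LE (Cond K) := ⟨fun c d => ∃ h : c.U ⊆ d.U, ∀ x y : c.U, inc h (x * y) = inc h x * inc h y⟩

instance : Preorder (Cond K) where
  le_refl c := ⟨fun _ h => h, fun _ _ => rfl⟩
  le_trans c d e := by
    rintro ⟨h, h'⟩ ⟨g, g'⟩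
    refine ⟨fun _ hx => g (h hx), fun x y => ?_⟩
    change inc g (inc h (x * y)) = inc g (inc h x) * inc g (inc h y)
    rw [h', g']

/-- The inclusion homomorphism. -/
def incHom {c d : Cond K} (h : c ≤ d) : c.U →* d.U :=
  MonoidHom.mk' (inc h.choose) (fun x y => h.choose_spec x y)

theorem incHom_val {c d : Cond K} (h : c ≤ d) (x : c.U) :
    ((incHom h x : d.U) : K ⊕ ℕ) = x := rfl

theorem incHom_injective {c d : Cond K} (h : c ≤ d) : Function.Injective (incHom h) := by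
  intro x y hxy
  have := congrArg (fun z : d.U => (z : K ⊕ ℕ)) hxy
  exact Subtype.ext this

/-- The trace on `K`. -/
def E (c : Cond K) : Subgroup K where
  carrier := {k | Sum.inl k ∈ c.U}
  mul_mem' := fun {a b} ha hb => (c.compat a b ha hb).choose
  one_mem' := c.one_mem
  inv_mem' := fun {a} ha => c.inv_mem a ha

theorem mem_E (c : Cond K) (k : K) : k ∈ c.E ↔ Sum.inl k ∈ c.U := Iff.rfl

/-- The embedding of the trace. -/
def κ (c : Cond K) : c.E →* c.U :=
  MonoidHom.mk' (fun k => ⟨Sum.inl (k : K), k.2⟩) (fun a b => (c.compat a b a.2 b.2).choose_spec.symm)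

theorem κ_val (c : Cond K) (k : c.E) : ((c.κ k : c.U) : K ⊕ ℕ) = Sum.inl (k : K) := rfl

theorem κ_injective (c : Cond K) : Function.Injective c.κ := by
  intro x y hxy
  have := congrArg (fun z : c.U => (z : K ⊕ ℕ)) hxy
  exact Subtype.ext (Sum.inl_injective this)

instance (c : Cond K) : Finite c.E := Finite.of_injective _ c.κ_injective

instance [Countable K] : Countable (Cond K) := by
  classical
  have : Function.Injective (fun c : Cond K =>
      (⟨c.U, fun x y => x * y⟩ : Σ U : Finset (K ⊕ ℕ), (U → U → U))) := by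
    intro c d h
    rcases c with ⟨U, g, h1, h2, h3⟩
    rcases d with ⟨U', g', h1', h2', h3'⟩
    simp only [Sigma.mk.injEq] at h
    obtain ⟨rfl, h⟩ := h
    have hg : g = g' := by
      apply Group.ext
      exact eq_of_heq h
    subst hg
    rfl
  exact this.countable

theorem exists_ext (c : Cond K) (E' : Subgroup K) (Q : Type) [Group Q] [Finite Q]
    (j : c.U →* Q) (hj : Function.Injective j) (ι' : E' →* Q) (hι' : Function.Injective ι')
    (hE : c.E ≤ E') (hcompat : ∀ k : c.E, ι' ⟨k, hE k.2⟩ = j (c.κ k))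
    (hint : ∀ (u : c.U) (k : E'), j u = ι' k → (k : K) ∈ c.E) (n : ℕ) :
    ∃ (c' : Cond K) (hle : c ≤ c') (θ : c'.U ≃* Q), (∀ u, θ (incHom hle u) = j u) ∧
      (∀ k : E', ∃ h : Sum.inl (k : K) ∈ c'.U, θ ⟨Sum.inl (k : K), h⟩ = ι' k) ∧
      (∀ k : K, Sum.inl k ∈ c'.U → k ∈ E') ∧
      ((∃ q, q ∉ Set.range j ∧ q ∉ Set.range ι') → Sum.inr n ∈ c'.U) := by
  classical
  -- the numbering of new elements
  have hg : ∃ g : Q → ℕ, Function.Injective g ∧ (∀ q, Sum.inr (g q) ∉ c.U) ∧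
      ((∃ q, q ∉ Set.range j ∧ q ∉ Set.range ι') → Sum.inr n ∈ c.U ∨
        ∃ q, q ∉ Set.range j ∧ q ∉ Set.range ι' ∧ g q = n) := by
    have hfin : (Sum.inr ⁻¹' (c.U : Set (K ⊕ ℕ)) : Set ℕ).Finite :=
      (Finset.finite_toSet _).preimage Sum.inr_injective.injOn
    obtain ⟨M, hM⟩ := hfin.bddAbove
    obtain ⟨q, ⟨eq⟩⟩ := Finite.exists_equiv_fin Q
    let g₀ : Q → ℕ := fun x => M + 1 + eq x
    have hg₀ : Function.Injective g₀ := by
      intro x y hxy
      simp only [g₀, add_right_inj] at hxy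
      exact eq.injective (Fin.ext hxy)
    have hav : ∀ q, Sum.inr (g₀ q) ∉ c.U := by
      intro q hq
      have := hM hq
      simp only [g₀] at this
      omega
    by_cases hn : Sum.inr n ∈ c.U
    · exact ⟨g₀, hg₀, hav, fun _ => Or.inl hn⟩
    by_cases hq₀ : ∃ q, q ∉ Set.range j ∧ q ∉ Set.range ι'
    · obtain ⟨q₀, hq₀, hq₀'⟩ := hq₀
      refine ⟨fun q => Equiv.swap n (g₀ q₀) (g₀ q), (Equiv.injective _).comp hg₀, ?_, ?_⟩
      · intro q
        change Sum.inr (Equiv.swap n (g₀ q₀) (g₀ q)) ∉ c.U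
        by_cases h1 : g₀ q = n
        · rw [h1, Equiv.swap_apply_left]; exact hav _
        by_cases h2 : g₀ q = g₀ q₀
        · rw [h2, Equiv.swap_apply_right]; exact hn
        · rw [Equiv.swap_apply_of_ne_of_ne h1 h2]; exact hav _
      · intro _
        exact Or.inr ⟨q₀, hq₀, hq₀', Equiv.swap_apply_right _ _⟩
    · exact ⟨g₀, hg₀, hav, fun h => absurd h hq₀⟩
  obtain ⟨g, hginj, hgav, hgn⟩ := hg
  let f : Q → K ⊕ ℕ := fun q =>
    if h : ∃ u, j u = q then ((h.choose : c.U) : K ⊕ ℕ)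
    else if h' : ∃ k, ι' k = q then Sum.inl (h'.choose : K) else Sum.inr (g q)
  have hfj : ∀ u, f (j u) = u := by
    intro u
    have h : ∃ u', j u' = j u := ⟨u, rfl⟩
    simp only [f, dif_pos h]
    rw [hj h.choose_spec]
  have hfι : ∀ k, f (ι' k) = Sum.inl (k : K) := by
    intro k
    by_cases h : ∃ u, j u = ι' k
    · obtain ⟨u, hu⟩ := h
      have hk := hint u k hu
      have h1 : u = c.κ ⟨k, hk⟩ := hj (by rw [hu, ← hcompat ⟨k, hk⟩])
      rw [← hu, hfj, h1, κ_val]
    · have h' : ∃ k', ι' k' = ι' k := ⟨k, rfl⟩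
      simp only [f, dif_neg h, dif_pos h']
      rw [hι' h'.choose_spec]
  have hfn : ∀ q, q ∉ Set.range j → q ∉ Set.range ι' → f q = Sum.inr (g q) := by
    intro q h h'
    have h1 : ¬ ∃ u, j u = q := h
    have h2 : ¬ ∃ k, ι' k = q := h'
    simp only [f, dif_neg h1, dif_neg h2]
  have hcases : ∀ q, (∃ u, j u = q) ∨ (∃ k, ι' k = q) ∨ (q ∉ Set.range j ∧ q ∉ Set.range ι') := by
    intro q
    by_cases h : ∃ u, j u = q
    · exact Or.inl h
    by_cases h' : ∃ k, ι' k = q
    · exact Or.inr (Or.inl h')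
    exact Or.inr (Or.inr ⟨h, h'⟩)
  have key1 : ∀ (u : c.U) (k : E'), (u : K ⊕ ℕ) = Sum.inl (k : K) → j u = ι' k := by
    intro u k h
    have hk : (k : K) ∈ c.E := by
      rw [mem_E, ← h]; exact u.2
    have : u = c.κ ⟨k, hk⟩ := Subtype.ext (by rw [h, κ_val])
    rw [this, ← hcompat]
  have hf : Function.Injective f := by
    intro a b hab
    rcases hcases a with ⟨u, rfl⟩ | ⟨k, rfl⟩ | ⟨ha, ha'⟩
    · rw [hfj] at hab
      rcases hcases b with ⟨u', rfl⟩ | ⟨k', rfl⟩ | ⟨hb, hb'⟩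
      · rw [hfj] at hab
        rw [Subtype.ext hab]
      · rw [hfι] at hab
        exact key1 u k' hab
      · rw [hfn b hb hb'] at hab
        exact absurd (hab ▸ u.2) (hgav b)
    · rw [hfι] at hab
      rcases hcases b with ⟨u', rfl⟩ | ⟨k', rfl⟩ | ⟨hb, hb'⟩
      · rw [hfj] at hab
        exact (key1 u' k hab.symm).symm
      · rw [hfι] at hab
        rw [Subtype.ext (Sum.inl_injective hab)]
      · rw [hfn b hb hb'] at hab
        exact absurd hab Sum.inl_ne_inr
    · rw [hfn a ha ha'] at hab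
      rcases hcases b with ⟨u', rfl⟩ | ⟨k', rfl⟩ | ⟨hb, hb'⟩
      · rw [hfj] at hab
        exact absurd (hab ▸ u'.2) (hgav a)
      · rw [hfι] at hab
        exact absurd hab.symm Sum.inl_ne_inr
      · rw [hfn b hb hb'] at hab
        exact hginj (Sum.inr_injective hab)
  let U' : Finset (K ⊕ ℕ) := (Set.finite_range f).toFinset
  have hU' : ∀ q, f q ∈ U' := fun q => by
    rw [Set.Finite.mem_toFinset]; exact ⟨q, rfl⟩
  let e : Q ≃ U' := Equiv.ofBijective (fun q => ⟨f q, hU' q⟩) (by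
    constructor
    · intro a b hab
      exact hf (congrArg Subtype.val hab)
    · rintro ⟨x, hx⟩
      rw [Set.Finite.mem_toFinset] at hx
      obtain ⟨q, hq⟩ := hx
      exact ⟨q, Subtype.ext hq⟩)
  let gU : Group U' := e.symm.group
  have emul : ∀ a b : U', e.symm (a * b) = e.symm a * e.symm b := fun a b =>
    (Equiv.mulEquiv e.symm).map_mul a b
  have eq1 : ∀ q (h : f q ∈ U'), e.symm ⟨f q, h⟩ = q := by
    intro q h
    rw [Equiv.symm_apply_eq]
    rfl
  have mulU : ∀ (a b : Q) (ha : f a ∈ U') (hb : f b ∈ U') ,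
      (⟨f a, ha⟩ * ⟨f b, hb⟩ : U') = ⟨f (a * b), hU' _⟩ := by
    intro a b ha hb
    apply e.symm.injective
    rw [emul, eq1, eq1, eq1]
  have hinl : ∀ k : K, Sum.inl k ∈ U' → ∃ hk : k ∈ E', f (ι' ⟨k, hk⟩) = Sum.inl k := by
    intro k hk
    rw [Set.Finite.mem_toFinset] at hk
    obtain ⟨q, hq⟩ := hk
    have hkE : k ∈ E' := by
      rcases hcases q with ⟨u, rfl⟩ | ⟨k', rfl⟩ | ⟨ha, ha'⟩
      · rw [hfj] at hq
        apply hE
        rw [mem_E, ← hq]
        exact u.2
      · rw [hfι] at hq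
        rw [← Sum.inl_injective hq]
        exact k'.2
      · rw [hfn q ha ha'] at hq
        exact absurd hq.symm Sum.inl_ne_inr
    exact ⟨hkE, hfι _⟩
  have hinl' : ∀ k : E', Sum.inl (k : K) ∈ U' := by
    intro k
    rw [← hfι k]
    exact hU' _
  let c' : Cond K :=
    { U := U'
      grp := gU
      one_mem := hinl' 1
      inv_mem := by
        intro a ha
        obtain ⟨ha', -⟩ := hinl a ha
        exact hinl' (⟨a, ha'⟩⁻¹)
      compat := by
        intro a b ha hb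
        obtain ⟨ha', ha''⟩ := hinl a ha
        obtain ⟨hb', hb''⟩ := hinl b hb
        refine ⟨hinl' (⟨a, ha'⟩ * ⟨b, hb'⟩), ?_⟩
        have h1 : (⟨Sum.inl a, ha⟩ : U') = ⟨f (ι' ⟨a, ha'⟩), hU' _⟩ := Subtype.ext ha''.symm
        have h2 : (⟨Sum.inl b, hb⟩ : U') = ⟨f (ι' ⟨b, hb'⟩), hU' _⟩ := Subtype.ext hb''.symm
        rw [h1, h2, mulU]
        apply Subtype.ext
        change f _ = _
        rw [← map_mul, hfι]
        rfl }
  have hsub : c.U ⊆ c'.U := by
    intro x hx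
    have := hU' (j ⟨x, hx⟩)
    rwa [hfj] at this
  have hle : c ≤ c' := by
    refine ⟨hsub, ?_⟩
    intro x y
    have h1 : ∀ z : c.U, (inc hsub z : c'.U) = ⟨f (j z), hU' _⟩ := by
      intro z
      exact Subtype.ext (hfj z).symm
    rw [h1, h1, h1, map_mul]
    exact (mulU _ _ _ _).symm
  let θ : c'.U ≃* Q := { e.symm with map_mul' := emul }
  refine ⟨c', hle, θ, ?_, ?_, ?_, ?_⟩
  · intro u
    change e.symm _ = _
    rw [Equiv.symm_apply_eq]
    apply Subtype.ext
    change (u : K ⊕ ℕ) = f (j u)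
    rw [hfj]
  · intro k
    refine ⟨hinl' k, ?_⟩
    change e.symm _ = _
    rw [Equiv.symm_apply_eq]
    apply Subtype.ext
    change Sum.inl (k : K) = f (ι' k)
    rw [hfι]
  · intro k hk
    exact (hinl k hk).choose
  · intro hq
    rcases hgn hq with h | ⟨q, h1, h2, h3⟩
    · exact hsub h
    · have := hU' q
      rwa [hfn q h1 h2, h3] at this

end Cond

end Pool.Agent.Lib.MP_b18e8e_lc_Diamond
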