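import Mathlib

/-!
# Jensen's diamond principle for the first uncountable cardinal
-/

set_option autoImplicit false

namespace Pool.Agent.Lib.MP_b18e8e_lc_Diamond

open Cardinal

/-- The well-ordered set of order type `ω₁`. -/
abbrev Om : Type := (ℵ₁ : Cardinal.{0}).ord.ToType

/-- `C` is closed and unbounded in `ω₁`: it has elements above every `i`, and it contains every
`δ`, not the least element, such that `C` has elements between `i` and `δ` for all `i < δ`. -/
def IsClub (C : Set Om) : Prop :=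
  (∀ i, ∃ j ∈ C, i < j) ∧
    ∀ δ, (∃ i, i < δ) → (∀ i < δ, ∃ j ∈ C, i < j ∧ j < δ) → δ ∈ C

/-- Jensen's principle `♢`: there are sets `D δ ⊆ δ` (`δ < ω₁`) such that for every `X ⊆ ω₁` and
every closed unbounded `C ⊆ ω₁` there is `δ ∈ C` with `X ∩ δ = D δ`. -/
def Diamond : Prop :=
  ∃ D : Om → Set Om, ∀ X C : Set Om, IsClub C → ∃ δ ∈ C, X ∩ Set.Iio δ = D δ

end Pool.Agent.Lib.MP_b18e8e_lc_Diamond
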