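import Mathlib

/-!
# Directed unions of groups
-/

set_option autoImplicit false

namespace Pool.Agent.Lib.MP_b18e8e_lc_Diamond

theorem glue {Ω ι : Type} [Nonempty ι] (G : ι → Type) [∀ i, Group (G i)] (e : ∀ i, G i → Ω)
    (he : ∀ i, Function.Injective (e i))
    (dir : ∀ i j, ∃ (k : ι) (φ : G i →* G k) (ψ : G j →* G k),
      (∀ x, e k (φ x) = e i x) ∧ ∀ x, e k (ψ x) = e j x)
    (cov : ∀ x : Ω, ∃ (i : ι) (a : G i), e i a = x) :
    ∃ _ : Group Ω, ∀ i, ∀ x y : G i, e i (x * y) = e i x * e i y := by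
  classical
  have hmul : ∀ x y : Ω, ∃ z, ∀ i (a b : G i), e i a = x → e i b = y → e i (a * b) = z := by
    intro x y
    obtain ⟨i, a, rfl⟩ := cov x
    obtain ⟨j, b, rfl⟩ := cov y
    obtain ⟨k, φ, ψ, hφ, hψ⟩ := dir i j
    refine ⟨e k (φ a * ψ b), ?_⟩
    intro l c d hc hd
    obtain ⟨m, α, β, hα, hβ⟩ := dir k l
    have h1 : α (φ a) = β c := he m (by rw [hα, hβ, hφ, hc])
    have h2 : α (ψ b) = β d := he m (by rw [hα, hβ, hψ, hd])
    rw [← hβ, ← hα, map_mul, map_mul, h1, h2]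
  have hinv : ∀ x : Ω, ∃ z, ∀ i (a : G i), e i a = x → e i a⁻¹ = z := by
    intro x
    obtain ⟨i, a, rfl⟩ := cov x
    refine ⟨e i a⁻¹, ?_⟩
    intro l c hc
    obtain ⟨m, α, β, hα, hβ⟩ := dir i l
    have h1 : α a = β c := he m (by rw [hα, hβ, hc])
    rw [← hβ, ← hα, map_inv, map_inv, h1]
  have hone : ∃ z : Ω, ∀ i, e i 1 = z := by
    obtain ⟨i⟩ := (inferInstance : Nonempty ι)
    refine ⟨e i 1, ?_⟩
    intro l
    obtain ⟨m, α, β, hα, hβ⟩ := dir i l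
    rw [← hβ, ← hα, map_one, map_one]
  choose mul hmul using hmul
  choose inv hinv using hinv
  obtain ⟨one, hone⟩ := hone
  have hmul' : ∀ i (a b : G i), mul (e i a) (e i b) = e i (a * b) :=
    fun i a b => (hmul _ _ i a b rfl rfl).symm
  have hinv' : ∀ i (a : G i), inv (e i a) = e i a⁻¹ := fun i a => (hinv _ i a rfl).symm
  have triple : ∀ x y z : Ω, ∃ (k : ι) (a b c : G k), e k a = x ∧ e k b = y ∧ e k c = z := by
    intro x y z
    obtain ⟨i, a, rfl⟩ := cov x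
    obtain ⟨j, b, rfl⟩ := cov y
    obtain ⟨k, φ, ψ, hφ, hψ⟩ := dir i j
    obtain ⟨l, c, rfl⟩ := cov z
    obtain ⟨m, α, β, hα, hβ⟩ := dir k l
    exact ⟨m, α (φ a), α (ψ b), β c, by rw [hα, hφ], by rw [hα, hψ], hβ c⟩
  let _ : Mul Ω := ⟨mul⟩
  let _ : Inv Ω := ⟨inv⟩
  let _ : One Ω := ⟨one⟩
  refine ⟨Group.ofLeftAxioms ?_ ?_ ?_, ?_⟩
  · intro x y z
    obtain ⟨k, a, b, c, rfl, rfl, rfl⟩ := triple x y z
    change mul (mul _ _) _ = mul _ (mul _ _)
    rw [hmul', hmul', hmul', hmul', mul_assoc]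
  · intro x
    obtain ⟨i, a, rfl⟩ := cov x
    change mul one _ = _
    rw [← hone i, hmul', one_mul]
  · intro x
    obtain ⟨i, a, rfl⟩ := cov x
    change mul (inv _) _ = one
    rw [hinv', hmul', inv_mul_cancel, hone]
  · intro i x y
    exact (hmul' i x y).symm

end Pool.Agent.Lib.MP_b18e8e_lc_Diamond
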