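import Pool.Agent.Lib.MP_b18e8e_lc_Diamond.Task
import Pool.Agent.Lib.MP_b18e8e_lc_Diamond.Glue

/-!
# The extension step
-/

set_option autoImplicit false

namespace Pool.Agent.Lib.MP_b18e8e_lc_Diamond

open Wr Cond

theorem lf_of_finite (L : Type) [Group L] [Finite L] : LF L := fun _ _ => Set.toFinite _

section

variable {K : Type} [Group K]

/-- Index type for the tasks. -/
abbrev TI (K : Type) [Group K] (τ : Type) : Type :=
  (K ⊕ ℕ) ⊕ (Σ (_ : τ) (c₀ : Cond K) (q n : ℕ),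
    (c₀.U → Equiv.Perm (Fin q)) × Equiv.Perm (Fin q) × (Fin n → c₀.U))

/-- The cofinal sets. -/
def cofSet {τ : Type} (k : τ → ℕ) (s : ∀ t, Fin (k t) → ZMod 4) (V : τ → Subgroup K)
    (A : τ → Set K) : TI K τ → Set (Cond K)
  | Sum.inl x => {c | x ∈ c.U}
  | Sum.inr ⟨t, c₀, q, n, l₀, y, b⟩ => {c | ∀ l : c₀.U →* Equiv.Perm (Fin q), (l : _ → _) = l₀ →
      Function.Injective l → (∀ (a : K) (ha : Sum.inl a ∈ c₀.U), l ⟨_, ha⟩ ≠ y) →
      (∀ i, ∃ a ∈ V t, (b i : K ⊕ ℕ) = Sum.inl a) →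
      (∀ a ∈ V t, ∀ ha : Sum.inl a ∈ c₀.U, ∃ i, b i = ⟨_, ha⟩) →
      (∃ c' : Cond K, c ≤ c' ∧ c₀ ≤ c') →
      ∃ hle : c₀ ≤ c, Done (s t) (V t) (A t) c₀ (Equiv.Perm (Fin q)) l y b c hle}

theorem cofSet_cofinal (hK : LF K) {τ : Type} (k : τ → ℕ) (s : ∀ t, Fin (k t) → ZMod 4)
    (V : τ → Subgroup K) (A : τ → Set K) (hG : ∀ t, Gen (s t) K (V t) (A t)) (x : TI K τ) :
    IsCofinal (cofSet k s V A x) := by
  classical
  intro c
  rcases x with x | ⟨t, c₀, q, n, l₀, y, b⟩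
  · rcases x with a | m
    · obtain ⟨c', h1, h2⟩ := c.exists_add hK a
      exact ⟨c', h2, h1⟩
    · obtain ⟨c', h1, h2⟩ := c.exists_num m
      exact ⟨c', h2, h1⟩
  · by_cases hc : c ∈ cofSet k s V A (Sum.inr ⟨t, c₀, q, n, l₀, y, b⟩)
    · exact ⟨c, hc, le_rfl⟩
    · simp only [cofSet, Set.mem_ofPred_eq] at hc
      push Not at hc
      obtain ⟨l, hl, hinj, hy, hb, hb', ⟨c', hcc', hc₀c'⟩, -⟩ := hc
      obtain ⟨c'', h1, h2, h3⟩ := task_cofinal (s t) (V t) (A t) (hG t) c₀ _ l hinj y hy b hb hb'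
        c' hc₀c'
      refine ⟨c'', ?_, hcc'.trans h1⟩
      intro l' hl' _ _ _ _ _
      have : l' = l := DFunLike.coe_injective (hl'.trans hl.symm)
      subst this
      exact ⟨h2, h3⟩

end

theorem ext_step {K : Type} [Group K] [Countable K] (hK : LF K) {τ : Type} [Countable τ]
    (k : τ → ℕ) (s : ∀ t, Fin (k t) → ZMod 4) (V : τ → Subgroup K) (A : τ → Set K)
    (hA : ∀ t, A t ⊆ V t) (hG : ∀ t, Gen (s t) K (V t) (A t))
    (hR : ∀ t, Real (s t) K (V t) (A t)) :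
    ∃ (_ : Group (K ⊕ ℕ)) (inl' : K →* (K ⊕ ℕ)), (∀ a, inl' a = Sum.inl a) ∧ LF (K ⊕ ℕ) ∧
      ∀ t, Gen (s t) (K ⊕ ℕ) (Sum.inl '' (V t : Set K)) (Sum.inl '' (A t)) ∧
        Real (s t) (K ⊕ ℕ) (Sum.inl '' (V t : Set K)) (Sum.inl '' (A t)) := by
  classical
  let 𝒟 : TI K τ → Order.Cofinal (Cond K) := fun x =>
    ⟨cofSet k s V A x, cofSet_cofinal hK k s V A hG x⟩
  let _ : Encodable (TI K τ) := Encodable.ofCountable _
  let c₁ : Cond K := Classical.arbitrary _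
  let 𝒢 := Order.idealOfCofinals c₁ 𝒟
  have meets : ∀ x : TI K τ, ∃ c ∈ 𝒢, c ∈ cofSet k s V A x := by
    intro x
    obtain ⟨c, h1, h2⟩ := Order.cofinal_meets_idealOfCofinals c₁ 𝒟 x
    exact ⟨c, h2, h1⟩
  have dir : ∀ c ∈ 𝒢, ∀ d ∈ 𝒢, ∃ e ∈ 𝒢, c ≤ e ∧ d ≤ e := fun c hc d hd =>
    𝒢.directed c hc d hd
  have covc : ∀ x : K ⊕ ℕ, ∃ c ∈ 𝒢, x ∈ c.U := fun x => meets (Sum.inl x)
  -- glueing
  have : Nonempty {c : Cond K // c ∈ 𝒢} := ⟨⟨c₁, Order.mem_idealOfCofinals c₁ 𝒟⟩⟩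
  obtain ⟨gK, hgK⟩ := glue (Ω := K ⊕ ℕ) (ι := {c : Cond K // c ∈ 𝒢}) (fun c => c.1.U)
    (fun c x => (x : K ⊕ ℕ)) (fun c => Subtype.val_injective)
    (by
      rintro ⟨c, hc⟩ ⟨d, hd⟩
      obtain ⟨e, he, hce, hde⟩ := dir c hc d hd
      exact ⟨⟨e, he⟩, incHom hce, incHom hde, fun _ => rfl, fun _ => rfl⟩)
    (by
      intro x
      obtain ⟨c, hc, hx⟩ := covc x
      exact ⟨⟨c, hc⟩, ⟨x, hx⟩, rfl⟩)
  let ev : ∀ c : Cond K, c ∈ 𝒢 → (c.U →* (K ⊕ ℕ)) := fun c hc =>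
    MonoidHom.mk' (fun x => (x : K ⊕ ℕ)) (hgK ⟨c, hc⟩)
  have hev : ∀ c hc (x : c.U), ev c hc x = (x : K ⊕ ℕ) := fun _ _ _ => rfl
  have hevi : ∀ c hc, Function.Injective (ev c hc) := fun c hc => Subtype.val_injective
  have hinl : ∀ a b : K, (Sum.inl (a * b) : K ⊕ ℕ) = Sum.inl a * Sum.inl b := by
    intro a b
    obtain ⟨c, hc, ha⟩ := covc (Sum.inl a)
    obtain ⟨d, hd, hb⟩ := covc (Sum.inl b)
    obtain ⟨e, he, hce, hde⟩ := dir c hc d hd
    have ha' : Sum.inl a ∈ e.U := hce.choose ha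
    have hb' : Sum.inl b ∈ e.U := hde.choose hb
    obtain ⟨h1, h2⟩ := e.compat a b ha' hb'
    have h3 := hgK ⟨e, he⟩ ⟨_, ha'⟩ ⟨_, hb'⟩
    rw [h2] at h3
    exact h3
  let inl' : K →* (K ⊕ ℕ) := MonoidHom.mk' Sum.inl hinl
  have hinl' : ∀ a, inl' a = Sum.inl a := fun _ => rfl
  have hinli : Function.Injective inl' := Sum.inl_injective
  have covT : ∀ T : Set (K ⊕ ℕ), T.Finite → ∃ c ∈ 𝒢, T ⊆ (c.U : Set (K ⊕ ℕ)) := by
    intro T hT
    induction T, hT using Set.Finite.induction_on with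
    | empty => exact ⟨c₁, Order.mem_idealOfCofinals c₁ 𝒟, Set.empty_subset _⟩
    | @insert x T _ _ ih =>
      obtain ⟨c, hc, hcT⟩ := ih
      obtain ⟨d, hd, hx⟩ := covc x
      obtain ⟨e, he, hce, hde⟩ := dir c hc d hd
      refine ⟨e, he, ?_⟩
      rw [Set.insert_subset_iff]
      exact ⟨hde.choose hx, fun z hz => hce.choose (hcT hz)⟩
  -- the settled tasks
  have settle : ∀ (t : τ) (c₀ : Cond K) (_ : c₀ ∈ 𝒢) (q n : ℕ) (l : c₀.U →* Equiv.Perm (Fin q))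
      (y : Equiv.Perm (Fin q)) (b : Fin n → c₀.U), Function.Injective l →
      (∀ (a : K) (ha : Sum.inl a ∈ c₀.U), l ⟨_, ha⟩ ≠ y) →
      (∀ i, ∃ a ∈ V t, (b i : K ⊕ ℕ) = Sum.inl a) →
      (∀ a ∈ V t, ∀ ha : Sum.inl a ∈ c₀.U, ∃ i, b i = ⟨_, ha⟩) →
      ∃ c ∈ 𝒢, ∃ hle : c₀ ≤ c,
        Done (s t) (V t) (A t) c₀ (Equiv.Perm (Fin q)) l y b c hle := by
    intro t c₀ hc₀ q n l y b hl hy hb hb'
    obtain ⟨c, hc, hcc⟩ := meets (Sum.inr ⟨t, c₀, q, n, l, y, b⟩)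
    obtain ⟨d, -, h1, h2⟩ := dir c hc c₀ hc₀
    obtain ⟨h3, h4⟩ := hcc l rfl hl hy hb hb' ⟨d, h1, h2⟩
    exact ⟨c, hc, h3, h4⟩
  refine ⟨gK, inl', hinl', ?_, ?_⟩
  · apply lf_of_local
    intro T hT
    obtain ⟨c, hc, hcT⟩ := covT T hT
    exact ⟨c.U, inferInstance, ev c hc, fun x hx => ⟨⟨x, hcT hx⟩, rfl⟩, lf_of_finite _⟩
  intro t
  constructor
  · -- genericity
    intro S y hy n b hb hb'
    obtain ⟨c₀, hc₀, hSc⟩ := covT (Set.range S.ε) (Set.finite_range _)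
    obtain ⟨ε₀, hε₀⟩ := exists_lift (ev c₀ hc₀) (hevi _ (by assumption)) S.ε
      (fun e => ⟨⟨S.ε e, hSc ⟨e, rfl⟩⟩, rfl⟩)
    have hε₀' : ∀ e, ((ε₀ e : c₀.U) : K ⊕ ℕ) = S.ε e := hε₀
    have hε₀i : Function.Injective ε₀ := fun a b hab => S.hε (by rw [← hε₀, ← hε₀, hab])
    obtain ⟨R, _, _, j₁, l₁, hj₁, hl₁, hcomm, hstr⟩ := exists_amalgam S.ι ε₀ S.hι hε₀i
    obtain ⟨q, φ, hφ⟩ := exists_perm_hom R
    have hyl : ∀ u, l₁ u ≠ j₁ y := by
      intro u hu
      apply hy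
      refine hstr S.ι.range le_rfl y ?_
      exact Subgroup.mem_sup_right ⟨u, hu⟩
    obtain ⟨n₀, b₀, hb₀⟩ := exists_enum {u : c₀.U | ∃ a ∈ V t, (u : K ⊕ ℕ) = Sum.inl a}
      (Set.toFinite _)
    have hb₀1 : ∀ i, ∃ a ∈ V t, (b₀ i : K ⊕ ℕ) = Sum.inl a := fun i => by
      have : b₀ i ∈ {u : c₀.U | ∃ a ∈ V t, (u : K ⊕ ℕ) = Sum.inl a} := hb₀ ▸ ⟨i, rfl⟩
      exact this
    have hb₀2 : ∀ u : c₀.U, (∃ a ∈ V t, (u : K ⊕ ℕ) = Sum.inl a) → ∃ i, b₀ i = u := fun u hu => by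
      have : u ∈ Set.range b₀ := hb₀ ▸ hu
      exact this
    obtain ⟨c, hc, hle, P', _, _, j, ι, hj, hι, hjι, hst, hor⟩ := settle t c₀ hc₀ q n₀
      (φ.comp l₁) (φ (j₁ y)) b₀ (hφ.comp hl₁) (fun a ha h => hyl _ (hφ h)) hb₀1
      (fun a haV ha => hb₀2 _ ⟨a, haV, rfl⟩)
    let S' : Spn (K ⊕ ℕ) :=
      { E := c.U, P := P', ε := ev c hc, ι := ι, hε := hevi c hc, hι := hι }
    have hcommε : ∀ e, ι (incHom hle (ε₀ e)) = j (φ (j₁ (S.ι e))) := by
      intro e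
      rw [hjι, hcomm]
      rfl
    let h : Spn.Hom S S' :=
      { a := (incHom hle).comp ε₀
        j := j.comp (φ.comp j₁)
        hj := hj.comp (hφ.comp hj₁)
        hε := fun e => hε₀' e
        hι := hcommε
        strong := by
          intro B hB p hp
          have h1 : φ (j₁ p) ∈ (B.map j₁ ⊔ l₁.range).map φ := by
            refine hst _ ?_ _ ?_
            · rintro _ ⟨u, rfl⟩
              exact ⟨l₁ u, Subgroup.mem_sup_right ⟨u, rfl⟩, rfl⟩
            · refine (?_ : B.map (j.comp (φ.comp j₁)) ⊔ ι.range ≤ _) hp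
              refine sup_le_sup ?_ le_rfl
              rw [← Subgroup.map_map, ← Subgroup.map_map]
              exact Subgroup.map_mono (Subgroup.map_mono le_sup_left)
          obtain ⟨r, hr, hr'⟩ := h1
          rw [hφ hr'] at hr
          exact hstr B hB p hr }
    refine ⟨S', h, ?_⟩
    rcases hor with ⟨x, hxA, hx, hx'⟩ | ⟨m, b', hb'm, hb'V, hb'all, hx⟩
    · left
      refine ⟨fun i => ⟨Sum.inl (x i), hx i⟩, fun i => ⟨x i, hxA i, rfl⟩, ?_⟩
      have hr : ∀ i, ∃ i', b₀ i' = ε₀ (b i) := by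
        intro i
        apply hb₀2
        obtain ⟨a, ha, ha'⟩ := hb i
        exact ⟨a, ha, by rw [hε₀', ha']⟩
      choose r hr using hr
      have hl : ∀ i, (φ.comp l₁) (b₀ (r i)) = φ (j₁ (S.ι (b i))) := by
        intro i
        rw [hr, hcomm]
        rfl
      have e1 := congrArg (Subgroup.comap (FreeGroup.map (Sum.map r id))) hx'
      rw [← tp_comp, ← sT_restrict (sn (s t) 0) (fun i => (φ.comp l₁) (b₀ i)) r (φ (j₁ y))] at e1
      · have e2 : (fun i => (φ.comp l₁) (b₀ (r i))) = fun i => (φ.comp j₁) (S.ι (b i)) :=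
          funext hl
        rw [e2] at e1
        have e3 := sT_map (φ.comp j₁) (hφ.comp hj₁) (sn (s t) 0) (fun i => S.ι (b i)) y
        rw [← e3]
        refine Eq.trans ?_ e1
        congr 1
        funext z
        rcases z with i | i
        · simp only [Sum.elim_inl, Sum.map_inl]
          rw [hl]
          rfl
        · rfl
      · intro g hg hg'
        have h1 : g ∈ (φ.comp j₁).range := by
          refine (?_ : Subgroup.closure _ ≤ (φ.comp j₁).range) hg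
          rw [Subgroup.closure_le, Set.insert_subset_iff]
          refine ⟨⟨y, rfl⟩, ?_⟩
          rintro _ ⟨i, rfl⟩
          exact ⟨S.ι (b i), (hl i).symm⟩
        obtain ⟨p, rfl⟩ := h1
        have h2 : (φ.comp j₁) p ∈ (((V t).map inl').comap (ev c₀ hc₀)).map (φ.comp l₁) := by
          refine (?_ : Subgroup.closure _ ≤ _) hg'
          rw [Subgroup.closure_le]
          rintro _ ⟨i, rfl⟩
          obtain ⟨a, ha, ha'⟩ := hb₀1 i
          exact ⟨b₀ i, ⟨a, ha, ha'.symm⟩, rfl⟩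
        obtain ⟨u, ⟨a, haV, hau⟩, hu⟩ := h2
        have hu' : l₁ u = j₁ p := hφ hu
        have hau' : Sum.inl a = (u : K ⊕ ℕ) := hau
        have h3 : p ∈ S.ι.range := by
          refine hstr S.ι.range le_rfl p ?_
          exact Subgroup.mem_sup_right ⟨u, hu'⟩
        obtain ⟨e, rfl⟩ := h3
        rw [hcomm] at hu'
        have h4 : u = ε₀ e := hl₁ hu'
        obtain ⟨i, hi⟩ := hb' e ⟨a, haV, by rw [hau', h4, hε₀']⟩
        apply Subgroup.subset_closure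
        refine ⟨i, ?_⟩
        change (φ.comp l₁) (b₀ (r i)) = _
        rw [hl, hi]
        rfl
    · right
      refine ⟨m, fun i => ⟨Sum.inl (b' i), hb'm i⟩, fun i => ⟨b' i, hb'V i, rfl⟩, ?_, ?_⟩
      · rintro ⟨e, he⟩ ⟨a, ha, ha'⟩
        change Sum.inl a = e at ha'
        subst ha'
        obtain ⟨i, hi⟩ := hb'all a ha he
        exact ⟨i, Subtype.ext (congrArg Sum.inl hi)⟩
      · intro x hxA heq
        choose x₀ hx₀ hx₀' using hxA
        apply hx x₀ hx₀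
        refine Eq.trans ?_ heq
        rw [← tp_map inl' hinli]
        congr 1
        funext z
        rcases z with i | i
        · rfl
        · exact hx₀' i
  · -- realisation
    intro y hy n b hadm
    have hVr : Sum.inl '' (V t : Set K) ⊆ Set.range inl' := by
      rintro _ ⟨a, -, rfl⟩
      exact ⟨a, rfl⟩
    have hAV : Sum.inl '' (A t) ⊆ (Sum.inl '' (V t : Set K) : Set (K ⊕ ℕ)) :=
      Set.image_mono (hA t)
    rcases y with y₀ | m₀
    · refine real_at_of_local (s t) _ _ hAV inl' hinli hVr ?_ _ hy ⟨y₀, rfl⟩ n b hadm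
      have e1 : inl' ⁻¹' (Sum.inl '' (V t : Set K)) = V t :=
        Set.preimage_image_eq _ Sum.inl_injective
      have e2 : inl' ⁻¹' (Sum.inl '' (A t)) = A t := Set.preimage_image_eq _ Sum.inl_injective
      rw [e1, e2]
      exact hR t
    · obtain ⟨E, hE, hyE, hbE, hbE'⟩ := hadm
      obtain ⟨c₀, hc₀, hEc⟩ := covT E hE
      obtain ⟨q, φ, hφ⟩ := exists_perm_hom c₀.U
      obtain ⟨n₀, b₀, hb₀⟩ := exists_enum {u : c₀.U | ∃ a ∈ V t, (u : K ⊕ ℕ) = Sum.inl a}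
        (Set.toFinite _)
      have hb₀1 : ∀ i, ∃ a ∈ V t, (b₀ i : K ⊕ ℕ) = Sum.inl a := fun i => by
        have : b₀ i ∈ {u : c₀.U | ∃ a ∈ V t, (u : K ⊕ ℕ) = Sum.inl a} := hb₀ ▸ ⟨i, rfl⟩
        exact this
      have hb₀2 : ∀ u : c₀.U, (∃ a ∈ V t, (u : K ⊕ ℕ) = Sum.inl a) → ∃ i, b₀ i = u :=
        fun u hu => by
          have : u ∈ Set.range b₀ := hb₀ ▸ hu
          exact this
      have hyc : Sum.inr m₀ ∈ c₀.U := hEc hyE
      obtain ⟨c, hc, hle, P', _, _, j, ι, hj, hι, hjι, hst, hor⟩ := settle t c₀ hc₀ q n₀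
        φ (φ ⟨Sum.inr m₀, hyc⟩) b₀ hφ
        (fun a ha h => Sum.inl_ne_inr (congrArg Subtype.val (hφ h))) hb₀1
        (fun a haV ha => hb₀2 _ ⟨a, haV, rfl⟩)
      rcases hor with ⟨x, hxA, hx, hx'⟩ | ⟨m, b', hb'm, hb'V, hb'all, hx⟩
      · left
        refine ⟨fun i => Sum.inl (x i), fun i => ⟨x i, hxA i, rfl⟩, ?_⟩
        rw [sT_map φ hφ (sn (s t) 0) b₀ ⟨Sum.inr m₀, hyc⟩] at hx'
        -- everything in `K ⊕ ℕ`
        have e0 : tp (Sum.elim (fun i => ((b₀ i : c₀.U) : K ⊕ ℕ))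
            (sn (fun i => Sum.inl (x i)) (Sum.inr m₀))) =
            sT (sn (s t) 0) (fun i => ((b₀ i : c₀.U) : K ⊕ ℕ)) (Sum.inr m₀) := by
          have h1 := sT_map (ev c₀ hc₀) (hevi _ (by assumption)) (sn (s t) 0) b₀ ⟨Sum.inr m₀, hyc⟩
          have h2 := tp_map (ev c hc) (hevi _ (by assumption)) (Sum.elim (fun i => incHom hle (b₀ i))
            (sn (fun i => (⟨Sum.inl (x i), hx i⟩ : c.U)) (incHom hle ⟨Sum.inr m₀, hyc⟩)))
          have h3 := tp_map ι hι (Sum.elim (fun i => incHom hle (b₀ i))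
            (sn (fun i => (⟨Sum.inl (x i), hx i⟩ : c.U)) (incHom hle ⟨Sum.inr m₀, hyc⟩)))
          refine Eq.trans ?_ h1.symm
          rw [← hx', ← hjι]
          refine Eq.trans ?_ (h2.trans (h3.symm.trans ?_))
          · congr 1
            funext z
            rcases z with i | i
            · rfl
            · exact (congrFun (comp_sn (ev c hc) (fun i => (⟨Sum.inl (x i), hx i⟩ : c.U))
                (incHom hle ⟨Sum.inr m₀, hyc⟩)) i).symm
          · congr 1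
            funext z
            rcases z with i | i
            · simp only [Sum.elim_inl]
              rw [hjι]
            · exact congrFun (comp_sn ι (fun i => (⟨Sum.inl (x i), hx i⟩ : c.U))
                (incHom hle ⟨Sum.inr m₀, hyc⟩)) i
        have hr : ∀ i, ∃ i', ((b₀ i' : c₀.U) : K ⊕ ℕ) = b i := by
          intro i
          obtain ⟨h1, a, ha, ha'⟩ := hbE i
          obtain ⟨i', hi'⟩ := hb₀2 ⟨b i, hEc h1⟩ ⟨a, ha, ha'.symm⟩
          exact ⟨i', by rw [hi']⟩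
        choose r hr using hr
        have e1 := congrArg (Subgroup.comap (FreeGroup.map (Sum.map r id))) e0
        rw [← tp_comp, ← sT_restrict (sn (s t) 0) (fun i => ((b₀ i : c₀.U) : K ⊕ ℕ)) r] at e1
        · have e2 : (fun i => ((b₀ (r i) : c₀.U) : K ⊕ ℕ)) = b := funext hr
          rw [e2] at e1
          rw [← e1]
          congr 1
          funext z
          rcases z with i | i
          · exact (hr i).symm
          · rfl
        · intro g hg hg'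
          have h1 : g ∈ E := by
            refine (?_ : Subgroup.closure _ ≤ E) hg
            rw [Subgroup.closure_le, Set.insert_subset_iff]
            refine ⟨hyE, ?_⟩
            rintro _ ⟨i, rfl⟩
            change ((b₀ (r i) : c₀.U) : K ⊕ ℕ) ∈ (E : Set (K ⊕ ℕ))
            rw [hr]
            exact (hbE i).1
          have h2 : g ∈ (V t).map inl' := by
            refine (?_ : Subgroup.closure _ ≤ _) hg'
            rw [Subgroup.closure_le]
            rintro _ ⟨i, rfl⟩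
            obtain ⟨a, ha, ha'⟩ := hb₀1 i
            exact ⟨a, ha, ha'.symm⟩
          obtain ⟨a, haV, hag⟩ := h2
          obtain ⟨i, hi⟩ := hbE' g h1 ⟨a, haV, hag⟩
          apply Subgroup.subset_closure
          refine ⟨i, ?_⟩
          change ((b₀ (r i) : c₀.U) : K ⊕ ℕ) = g
          rw [hr, hi]
      · right
        refine ⟨m, fun i => Sum.inl (b' i), ⟨(ev c hc).range, ?_, ?_, ?_, ?_⟩, ?_⟩
        · rw [MonoidHom.coe_range]
          exact Set.finite_range _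
        · exact ⟨incHom hle ⟨Sum.inr m₀, hyc⟩, rfl⟩
        · intro i
          exact ⟨⟨⟨_, hb'm i⟩, rfl⟩, ⟨b' i, hb'V i, rfl⟩⟩
        · rintro _ ⟨u, rfl⟩ ⟨a, ha, ha'⟩
          have hu : (u : K ⊕ ℕ) = Sum.inl a := ha'.symm
          obtain ⟨i, hi⟩ := hb'all a ha (hu ▸ u.2)
          refine ⟨i, ?_⟩
          change Sum.inl (b' i) = (u : K ⊕ ℕ)
          rw [hi, hu]
        · intro x hxA heq
          choose x₀ hx₀ hx₀' using hxA
          apply hx x₀ hx₀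
          have h1 := sT_map (ev c hc) (hevi _ (by assumption)) (s t) (fun i => (⟨_, hb'm i⟩ : c.U))
            (incHom hle ⟨Sum.inr m₀, hyc⟩)
          have h2 := sT_map ι hι (s t) (fun i => (⟨_, hb'm i⟩ : c.U))
            (incHom hle ⟨Sum.inr m₀, hyc⟩)
          rw [hjι] at h2
          rw [h2, ← h1]
          refine Eq.trans ?_ heq
          rw [← tp_map inl' hinli]
          congr 1
          funext z
          rcases z with i | i
          · rfl
          · exact hx₀' i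

end Pool.Agent.Lib.MP_b18e8e_lc_Diamond
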