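import Pool.Agent.Lib.MP_b18e8e_lc_Diamond.ST
import Pool.Agent.Lib.MP_b18e8e_lc_Diamond.Amalgam

/-!
# Generic extensions: spans of finite groups
-/

set_option autoImplicit false

namespace Pool.Agent.Lib.MP_b18e8e_lc_Diamond

open Wr

/-- Local finiteness. -/
def LF (K : Type) [Group K] : Prop :=
  ∀ T : Set K, T.Finite → ((Subgroup.closure T : Subgroup K) : Set K).Finite

/-- A finite group `P` containing a finite subgroup `E` of `K`. -/
structure Spn (K : Type) [Group K] where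
  /-- the common subgroup -/
  E : Type
  /-- the finite group -/
  P : Type
  [gE : Group E]
  [gP : Group P]
  [fE : Finite E]
  [fP : Finite P]
  /-- embedding in `K` -/
  ε : E →* K
  /-- embedding in `P` -/
  ι : E →* P
  hε : Function.Injective ε
  hι : Function.Injective ι

attribute [instance] Spn.gE Spn.gP Spn.fE Spn.fP

/-- Strong extensions of spans. -/
structure Spn.Hom {K : Type} [Group K] (S S' : Spn K) where
  /-- the map of common subgroups -/
  a : S.E →* S'.E
  /-- the map of finite groups -/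
  j : S.P →* S'.P
  hj : Function.Injective j
  hε : ∀ e, S'.ε (a e) = S.ε e
  hι : ∀ e, S'.ι (a e) = j (S.ι e)
  strong : ∀ B : Subgroup S.P, S.ι.range ≤ B → ∀ p, j p ∈ B.map j ⊔ S'.ι.range → p ∈ B

section

variable {K : Type} [Group K] {k : ℕ}

/-- The tuple `x` followed by `y`. -/
def sn {L : Type*} {k : ℕ} (x : Fin k → L) (y : L) : Fin (k + 1) → L :=
  Fin.snoc (α := fun _ => L) x y

theorem sn_last {L : Type*} {k : ℕ} (x : Fin k → L) (y : L) : sn x y (Fin.last k) = y := by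
  simp [sn]

theorem sn_castSucc {L : Type*} {k : ℕ} (x : Fin k → L) (y : L) (i : Fin k) :
    sn x y i.castSucc = x i := by
  simp [sn]

theorem comp_sn {L M : Type*} {k : ℕ} (f : L → M) (x : Fin k → L) (y : L) :
    (fun i => f (sn x y i)) = sn (fun i => f (x i)) (f y) := by
  funext i
  refine Fin.lastCases ?_ ?_ i
  · simp [sn_last]
  · intro i; simp [sn_castSucc]

/-- Positive alternative. -/
def Pos (s : Fin k → ZMod 4) (A : Set K) {S S' : Spn K} (h : Spn.Hom S S') (y : S.P) {n : ℕ}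
    (b : Fin n → S.E) : Prop :=
  ∃ x : Fin k → S'.E, (∀ i, S'.ε (x i) ∈ A) ∧
    tp (Sum.elim (fun i => h.j (S.ι (b i))) (sn (fun i => S'.ι (x i)) (h.j y))) =
      sT (sn s 0) (fun i => S.ι (b i)) y

/-- Negative alternative. -/
def Neg (s : Fin k → ZMod 4) (V A : Set K) (S' : Spn K) (y' : S'.P) : Prop :=
  ∃ (m : ℕ) (b : Fin m → S'.E), (∀ i, S'.ε (b i) ∈ V) ∧ (∀ e, S'.ε e ∈ V → ∃ i, b i = e) ∧
    ∀ x : Fin k → K, (∀ i, x i ∈ A) →
      tp (Sum.elim (fun i => S'.ε (b i)) x) ≠ sT s (fun i => S'.ι (b i)) y'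

/-- Genericity of `K` over `V` with respect to `A` and the exponents `s`. -/
def Gen (s : Fin k → ZMod 4) (K : Type) [Group K] (V A : Set K) : Prop :=
  ∀ (S : Spn K) (y : S.P), y ∉ S.ι.range → ∀ (n : ℕ) (b : Fin n → S.E), (∀ i, S.ε (b i) ∈ V) →
    (∀ e, S.ε e ∈ V → ∃ i, b i = e) →
    ∃ (S' : Spn K) (h : Spn.Hom S S'), Pos s A h y b ∨ Neg s V A S' (h.j y)

/-- `b` enumerates the intersection with `V` of a finite subgroup containing `y`. -/
def Adm (V : Set K) {n : ℕ} (b : Fin n → K) (y : K) : Prop :=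
  ∃ E : Subgroup K, (E : Set K).Finite ∧ y ∈ E ∧ (∀ i, b i ∈ E ∧ b i ∈ V) ∧
    ∀ e ∈ E, e ∈ V → ∃ i, b i = e

/-- Realisation of the alternatives by the elements of `K` outside `V`. -/
def Real (s : Fin k → ZMod 4) (K : Type) [Group K] (V A : Set K) : Prop :=
  ∀ y ∉ V, ∀ (n : ℕ) (b : Fin n → K), Adm V b y →
    (∃ x : Fin k → K, (∀ i, x i ∈ A) ∧ tp (Sum.elim b (sn x y)) = sT (sn s 0) b y) ∨
    ∃ (m : ℕ) (b' : Fin m → K), Adm V b' y ∧ ∀ x : Fin k → K, (∀ i, x i ∈ A) →
      tp (Sum.elim b' x) ≠ sT s b' y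

theorem real_base (s : Fin k → ZMod 4) (A : Set K) : Real s K Set.univ A :=
  fun _ hy => absurd (Set.mem_univ _) hy

theorem gen_base (s : Fin k → ZMod 4) (hs : ∃ c : ZMod 4, ∀ i, c * s i = 2) (hK : LF K)
    (A : Set K) : Gen s K Set.univ A := by
  intro S y _ n b _ hb
  have hsurj : ∀ e, ∃ i, b i = e := fun e => hb e (Set.mem_univ _)
  obtain ⟨c, hc⟩ := hs
  by_cases hex : ∃ x : Fin k → K, (∀ i, x i ∈ A) ∧
      tp (Sum.elim (fun i => S.ε (b i)) x) = sT s (fun i => S.ι (b i)) y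
  · obtain ⟨x, hxA, hx⟩ := hex
    set F := Subgroup.closure (Set.range (fun i => S.ι (b i))) with hF
    have hFr : F = S.ι.range := by
      apply le_antisymm
      · rw [hF, Subgroup.closure_le]
        rintro _ ⟨i, rfl⟩
        exact ⟨b i, rfl⟩
      · rintro _ ⟨e, rfl⟩
        obtain ⟨i, rfl⟩ := hsurj e
        exact Subgroup.subset_closure ⟨i, rfl⟩
    rw [sT, sTF] at hx
    set E' := Subgroup.closure (Set.range (Sum.elim (fun i => S.ε (b i)) x)) with hE'
    obtain ⟨θ, hθi, hθ, hθr⟩ := exists_hom_of_tp_eq hx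
    have hfin : Finite E' := (hK _ (Set.finite_range _)).to_subtype
    have hmem : ∀ e, S.ε e ∈ E' := by
      intro e
      obtain ⟨i, rfl⟩ := hsurj e
      exact Subgroup.subset_closure ⟨Sum.inl i, rfl⟩
    let S' : Spn K := { E := E', P := Wr S.P (S.P ⧸ F), ε := E'.subtype, ι := θ,
                        hε := E'.subtype_injective, hι := hθi }
    have hθb : ∀ e, θ ⟨S.ε e, hmem e⟩ = inr (S.ι e) := by
      intro e
      obtain ⟨i, rfl⟩ := hsurj e
      exact hθ (Sum.inl i)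
    let h : Spn.Hom S S' :=
      { a := S.ε.codRestrict E' hmem
        j := inr
        hj := inr_injective
        hε := fun e => rfl
        hι := hθb
        strong := by
          intro B hB p hp
          refine wr_strong F s c hc y B (hFr ▸ hB) p ?_
          have hle : B.map inr ⊔ θ.range ≤ B.map inr ⊔
              Subgroup.closure (Set.range (fun i => cj (bp F) (s i) y)) := by
            refine sup_le le_sup_left ?_
            rw [hθr, Subgroup.closure_le]
            rintro _ ⟨i | i, rfl⟩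
            · apply Subgroup.mem_sup_left
              exact ⟨S.ι (b i), hB ⟨b i, rfl⟩, rfl⟩
            · apply Subgroup.mem_sup_right
              exact Subgroup.subset_closure ⟨i, rfl⟩
          exact hle hp }
    refine ⟨S', h, Or.inl ⟨fun i => ⟨x i, Subgroup.subset_closure ⟨Sum.inr i, rfl⟩⟩, hxA, ?_⟩⟩
    rw [sT, sTF]
    congr 1
    funext z
    rcases z with i | i
    · rfl
    · simp only [Sum.elim_inr]
      refine Fin.lastCases ?_ ?_ i
      · rw [sn_last, sn_last, cj_zero]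
      · intro i
        rw [sn_castSucc, sn_castSucc]
        exact hθ (Sum.inr i)
  · push Not at hex
    refine ⟨S, { a := MonoidHom.id _, j := MonoidHom.id _, hj := Function.injective_id,
                 hε := fun _ => rfl, hι := fun _ => rfl, strong := ?_ }, Or.inr ?_⟩
    · intro B hB p hp
      rw [Subgroup.map_id, sup_eq_left.2 hB] at hp
      exact hp
    · exact ⟨n, b, fun i => Set.mem_univ _, hb, hex⟩

/-- lifting a homomorphism through an injective one. -/
theorem exists_lift {E L K : Type} [Group E] [Group L] [Group K] (φ : L →* K)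
    (hφ : Function.Injective φ) (ε : E →* K) (h : ∀ e, ε e ∈ Set.range φ) :
    ∃ ε' : E →* L, ∀ e, φ (ε' e) = ε e := by
  choose f hf using h
  refine ⟨⟨⟨f, hφ (by rw [hf, map_one, map_one])⟩, fun a b => hφ ?_⟩, hf⟩
  change φ (f (a * b)) = φ (f a * f b)
  rw [map_mul, hf, hf, hf, map_mul]

theorem gen_of_local (s : Fin k → ZMod 4) (V A : Set K) (hAV : A ⊆ V)
    (h : ∀ T : Set K, T.Finite → ∃ (L : Type) (_ : Group L) (φ : L →* K),
      Function.Injective φ ∧ T ⊆ Set.range φ ∧ V ⊆ Set.range φ ∧ Gen s L (φ ⁻¹' V) (φ ⁻¹' A)) :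
    Gen s K V A := by
  intro S y hy n b hb hb'
  obtain ⟨L, _, φ, hφ, hT, hV, hG⟩ := h (Set.range S.ε) (Set.finite_range _)
  obtain ⟨ε', hε'⟩ := exists_lift φ hφ S.ε (fun e => hT ⟨e, rfl⟩)
  let SL : Spn L := { E := S.E, P := S.P, ε := ε', ι := S.ι, hι := S.hι,
                      hε := fun a b hab => S.hε (by rw [← hε', ← hε', hab]) }
  obtain ⟨SL', hL, hor⟩ := hG SL y hy n b
    (fun i => by change φ (ε' (b i)) ∈ V; rw [hε']; exact hb i)
    (fun e he => hb' e (by
      have he' : φ (ε' e) ∈ V := he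
      rwa [hε'] at he'))
  let S' : Spn K := { E := SL'.E, P := SL'.P, ε := φ.comp SL'.ε, ι := SL'.ι, hι := SL'.hι,
                      hε := hφ.comp SL'.hε }
  let hh : Spn.Hom S S' :=
    { a := hL.a
      j := hL.j
      hj := hL.hj
      hε := fun e => by
        change φ (SL'.ε (hL.a e)) = S.ε e
        rw [hL.hε, ← hε']
      hι := hL.hι
      strong := hL.strong }
  refine ⟨S', hh, ?_⟩
  rcases hor with ⟨x, hx, hx'⟩ | ⟨m, c, hc, hc', hx⟩
  · exact Or.inl ⟨x, hx, hx'⟩
  · refine Or.inr ⟨m, c, hc, hc', ?_⟩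
    intro x hxA
    choose xL hxL using fun i => hV (hAV (hxA i))
    have := hx xL (fun i => by change φ (xL i) ∈ A; rw [hxL]; exact hxA i)
    intro heq
    apply this
    rw [← tp_map φ hφ, ← heq]
    congr 1
    funext z
    rcases z with i | i
    · rfl
    · exact hxL i

theorem real_at_of_local (s : Fin k → ZMod 4) (V A : Set K) (hAV : A ⊆ V)
    {L : Type} [Group L] (φ : L →* K) (hφ : Function.Injective φ) (hV : V ⊆ Set.range φ)
    (hG : Real s L (φ ⁻¹' V) (φ ⁻¹' A)) (y : K) (hy : y ∉ V) (hyr : y ∈ Set.range φ) (n : ℕ)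
    (b : Fin n → K) (hb : Adm V b y) :
    (∃ x : Fin k → K, (∀ i, x i ∈ A) ∧ tp (Sum.elim b (sn x y)) = sT (sn s 0) b y) ∨
    ∃ (m : ℕ) (b' : Fin m → K), Adm V b' y ∧ ∀ x : Fin k → K, (∀ i, x i ∈ A) →
      tp (Sum.elim b' x) ≠ sT s b' y := by
  obtain ⟨E, hE, hyE, hb, hb'⟩ := hb
  obtain ⟨yL, hyL⟩ := hyr
  choose bL hbL using fun i => hV (hb i).2
  have hadm : Adm (φ ⁻¹' V) bL yL := by
    refine ⟨E.comap φ, ?_, ?_, ?_, ?_⟩
    · change (φ ⁻¹' (E : Set K)).Finite
      exact hE.preimage hφ.injOn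
    · rw [Subgroup.mem_comap, hyL]; exact hyE
    · intro i
      rw [Subgroup.mem_comap, Set.mem_preimage, hbL]
      exact hb i
    · intro e he heV
      obtain ⟨i, hi⟩ := hb' (φ e) he heV
      exact ⟨i, hφ (by rw [hbL, hi])⟩
  have hbeq : (fun i => φ (bL i)) = b := funext hbL
  rcases hG yL (by rw [Set.mem_preimage, hyL]; exact hy) n bL hadm with
    ⟨x, hx, hx'⟩ | ⟨m, c, ⟨E', hE', hyE', hc, hc'⟩, hx⟩
  · left
    refine ⟨fun i => φ (x i), hx, ?_⟩
    rw [← hbeq, ← hyL, sT_map φ hφ, ← hx', ← tp_map φ hφ]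
    congr 1
    funext z
    rcases z with i | i
    · rfl
    · simp only [Sum.elim_inr]
      exact (congrFun (comp_sn φ x yL) i).symm
  · right
    refine ⟨m, fun i => φ (c i), ⟨E'.map φ, ?_, ?_, ?_, ?_⟩, ?_⟩
    · exact hE'.image φ
    · exact ⟨yL, hyE', hyL⟩
    · intro i
      exact ⟨⟨c i, (hc i).1, rfl⟩, (hc i).2⟩
    · rintro _ ⟨e, he, rfl⟩ heV
      obtain ⟨i, hi⟩ := hc' e he heV
      exact ⟨i, by change φ (c i) = φ e; rw [hi]⟩
    · intro x hxA
      choose xL hxL using fun i => hV (hAV (hxA i))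
      have := hx xL (fun i => by change φ (xL i) ∈ A; rw [hxL]; exact hxA i)
      intro heq
      apply this
      rw [← hyL, sT_map φ hφ] at heq
      rw [← heq, ← tp_map φ hφ]
      congr 1
      funext z
      rcases z with i | i
      · rfl
      · exact hxL i

theorem real_of_local (s : Fin k → ZMod 4) (V A : Set K) (hAV : A ⊆ V)
    (h : ∀ T : Set K, T.Finite → ∃ (L : Type) (_ : Group L) (φ : L →* K),
      Function.Injective φ ∧ T ⊆ Set.range φ ∧ V ⊆ Set.range φ ∧ Real s L (φ ⁻¹' V) (φ ⁻¹' A)) :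
    Real s K V A := by
  intro y hy n b hb
  obtain ⟨L, _, φ, hφ, hT, hV, hG⟩ := h {y} (Set.finite_singleton y)
  exact real_at_of_local s V A hAV φ hφ hV hG y hy (hT rfl) n b hb

theorem lf_of_local
    (h : ∀ T : Set K, T.Finite → ∃ (L : Type) (_ : Group L) (φ : L →* K),
      T ⊆ Set.range φ ∧ LF L) : LF K := by
  intro T hT
  obtain ⟨L, _, φ, hTr, hL⟩ := h T hT
  have : ∃ T' : Set L, T'.Finite ∧ T ⊆ φ '' T' := by
    have := hT.to_subtype
    choose f hf using fun t : T => hTr t.2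
    exact ⟨Set.range f, Set.finite_range f, fun t ht => ⟨f ⟨t, ht⟩, ⟨_, rfl⟩, hf ⟨t, ht⟩⟩⟩
  obtain ⟨T', hT', hsub⟩ := this
  have h1 : Subgroup.closure T ≤ (Subgroup.closure T').map φ := by
    rw [Subgroup.closure_le]
    intro t ht
    obtain ⟨t', ht', rfl⟩ := hsub ht
    exact ⟨t', Subgroup.subset_closure ht', rfl⟩
  refine ((hL T' hT').image φ).subset ?_
  intro x hx
  exact h1 hx

end

end Pool.Agent.Lib.MP_b18e8e_lc_Diamond
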