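import Pool.Agent.Lib.MP_b18e8e_lc_Diamond.Tower
import Pool.Agent.Lib.MP_b18e8e_lc_Diamond.Defs
import Pool.Agent.Lib.MP_b18e8e_lc.Defs

/-!
# A strange group of cardinality `ℵ₁` from diamond
-/

set_option autoImplicit false

namespace Pool.Agent.Lib.MP_b18e8e_lc_Diamond

open Cardinal Wr

theorem mk_Om : #Om = ℵ₁ := by simp

theorem countable_Iio (i : Om) : (Set.Iio i).Countable := by
  have h : #(Set.Iio i) < #Om := Cardinal.mk_Iio_lt i (by simp)
  rw [mk_Om] at h
  rw [← Set.countable_coe_iff, ← Cardinal.mk_le_aleph0_iff]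
  have h' : #(Set.Iio i) < Order.succ ℵ₀ := by
    rw [Cardinal.succ_aleph0]; exact h
  exact Order.lt_succ_iff.1 h'

theorem countable_Iic (i : Om) : (Set.Iic i).Countable := by
  rw [← Set.Iio_insert]
  exact (countable_Iio i).insert i

theorem exists_bound (B : Set Om) (hB : B.Countable) : ∃ j, ∀ x ∈ B, x < j := by
  by_contra hcon
  push Not at hcon
  have h1 : (Set.univ : Set Om) = ⋃ x ∈ B, Set.Iic x := by
    ext j
    simp only [Set.mem_univ, Set.mem_iUnion, Set.mem_Iic, true_iff]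
    obtain ⟨x, hx, hxj⟩ := hcon j
    exact ⟨x, hx, hxj⟩
  have h2 : (Set.univ : Set Om).Countable := by
    rw [h1]
    exact hB.biUnion fun x _ => countable_Iic x
  have h3 : Countable Om := Set.countable_univ_iff.1 h2
  have h4 : #Om ≤ ℵ₀ := Cardinal.mk_le_aleph0_iff.2 h3
  rw [mk_Om] at h4
  exact absurd h4 (not_le.2 Cardinal.aleph0_lt_aleph_one)

theorem isClub_closure (B : Om → Set Om) (hB : ∀ i, (B i).Countable) :
    IsClub {δ | (∃ i, i < δ) ∧ ∀ i < δ, ∀ x ∈ B i, x < δ} := by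
  constructor
  · intro i₀
    have hg : ∀ i, ∃ j, i < j ∧ ∀ i' ≤ i, ∀ x ∈ B i', x < j := by
      intro i
      obtain ⟨j, hj⟩ := exists_bound (insert i (⋃ i' ∈ Set.Iic i, B i'))
        (((countable_Iic i).biUnion fun i' _ => hB i').insert i)
      refine ⟨j, hj i (Set.mem_insert _ _), ?_⟩
      intro i' hi' x hx
      apply hj
      apply Set.mem_insert_of_mem
      simp only [Set.mem_iUnion]
      exact ⟨i', hi', hx⟩
    choose g hg1 hg2 using hg
    let s : ℕ → Om := fun n => g^[n] i₀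
    have hs : ∀ n, s (n + 1) = g (s n) := fun n => Function.iterate_succ_apply' g n i₀
    obtain ⟨j, hj⟩ := exists_bound (Set.range s) (Set.countable_range s)
    obtain ⟨δ, hδ, hmin⟩ := WellFounded.has_min (wellFounded_lt (α := Om))
      {j | ∀ n, s n < j} ⟨j, fun n => hj _ ⟨n, rfl⟩⟩
    refine ⟨δ, ⟨⟨i₀, hδ 0⟩, ?_⟩, hδ 0⟩
    intro i hi x hx
    have : ∃ n, i ≤ s n := by
      by_contra hcon
      push Not at hcon
      exact hmin i hcon hi
    obtain ⟨n, hn⟩ := this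
    have h1 := hg2 (s n) i hn x hx
    rw [← hs] at h1
    exact h1.trans (hδ (n + 1))
  · intro δ hδ h
    refine ⟨hδ, ?_⟩
    intro i hi x hx
    obtain ⟨j, hj, hij, hjδ⟩ := h i hi
    exact (hj.2 i hij x hx).trans hjδ

section Patterns

variable {P : Type*} [Group P]

theorem cj_eq (F : Subgroup P) (y : P) :
    (inr y : Wr P (P ⧸ F)) * (cj (bp F) 3 y)⁻¹ * inr y = cj (bp F) 1 y := by
  ext1
  · simp only [mul_l, mul_r, inv_l, inv_r, cj_l, cj_r, inr_l, inr_r, Finsupp.mapDomain_zero,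
      zero_add, add_zero]
    have e3 : (3 : ZMod 4) = -1 := by decide
    rw [e3, Finsupp.single_neg, Finsupp.single_neg, sub_eq_add_neg, Finsupp.mapDomain_add]
    rw [← Finsupp.single_neg, neg_neg, Finsupp.mapDomain_single, Finsupp.mapDomain_single,
      neg_add, Finsupp.mapDomain_add, ← Finsupp.single_neg, ← Finsupp.single_neg,
      Finsupp.mapDomain_single, Finsupp.mapDomain_single, neg_neg]
    simp only [smul_inv_smul, Finsupp.single_neg, sub_eq_add_neg]
  · simp only [mul_r, inv_r, cj_r, inr_r]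
    group

theorem cj_ne (F : Subgroup P) (y : P) (hy : y ∉ F) :
    (cj (bp F) 3 y : Wr P (P ⧸ F)) ≠ cj (bp F) 1 y := by
  intro h
  have h1 := congrArg Wr.l h
  rw [cj_l, cj_l] at h1
  have hne : y • bp F ≠ bp F := fun e => hy ((smul_bp_eq_iff F y).1 e)
  have h2 := congrArg (fun f : (P ⧸ F) →₀ ZMod 4 => f (bp F)) h1
  simp only [Finsupp.sub_apply, Finsupp.single_eq_same] at h2
  rw [Finsupp.single_eq_of_ne (by exact hne.symm), Finsupp.single_eq_of_ne (by exact hne.symm)]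
    at h2
  exact absurd h2 (by decide)

/-- the positive alternative for two elements gives a bad triple. -/
theorem bad_of_sT {n : ℕ} (b : Fin n → P) (x : Fin 2 → P) (y : P)
    (hy : y ∉ Subgroup.closure (Set.range b))
    (h : tp (Sum.elim b (sn x y)) = sT (sn (![3, 1] : Fin 2 → ZMod 4) 0) b y) :
    (x 0)⁻¹ * y = y⁻¹ * x 1 ∧ x 0 ≠ x 1 := by
  set F := Subgroup.closure (Set.range b) with hF
  let e0 : FreeGroup (Fin n ⊕ Fin 3) := FreeGroup.of (Sum.inr 0)
  let e1 : FreeGroup (Fin n ⊕ Fin 3) := FreeGroup.of (Sum.inr 1)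
  let e2 : FreeGroup (Fin n ⊕ Fin 3) := FreeGroup.of (Sum.inr 2)
  have s0 : sn (![3, 1] : Fin 2 → ZMod 4) 0 0 = 3 := rfl
  have s1 : sn (![3, 1] : Fin 2 → ZMod 4) 0 1 = 1 := rfl
  have s2 : sn (![3, 1] : Fin 2 → ZMod 4) 0 2 = 0 := rfl
  have x0 : sn x y 0 = x 0 := rfl
  have x1 : sn x y 1 = x 1 := rfl
  have x2 : sn x y 2 = y := rfl
  constructor
  · have h1 : e2 * e0⁻¹ * e2 * e1⁻¹ ∈ sT (sn (![3, 1] : Fin 2 → ZMod 4) 0) b y := by
      rw [sT, sTF, mem_tp]
      simp only [e0, e1, e2, map_mul, map_inv, FreeGroup.lift_apply_of, Sum.elim_inr, s0, s1, s2]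
      rw [cj_zero, cj_eq, mul_inv_cancel]
    rw [← h, mem_tp] at h1
    simp only [e0, e1, e2, map_mul, map_inv, FreeGroup.lift_apply_of, Sum.elim_inr, x0, x1,
      x2] at h1
    have h2 : y * (x 0)⁻¹ * y = x 1 := mul_inv_eq_one.1 h1
    rw [← h2]
    group
  · intro hx
    have h1 : e0 * e1⁻¹ ∈ tp (Sum.elim b (sn x y)) := by
      rw [mem_tp]
      simp only [e0, e1, map_mul, map_inv, FreeGroup.lift_apply_of, Sum.elim_inr, x0, x1]
      rw [hx, mul_inv_cancel]
    rw [h, sT, sTF, mem_tp] at h1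
    simp only [e0, e1, map_mul, map_inv, FreeGroup.lift_apply_of, Sum.elim_inr, s0, s1] at h1
    exact cj_ne F y hy (mul_inv_eq_one.1 h1)

end Patterns

/-- closure under one more element of the base. -/
theorem tp_shift {L : Type*} [Group L] {m : ℕ} (b : Fin m → L) (x y z : L)
    (h : tp (Sum.elim (sn b x) (fun _ : Fin 1 => z)) =
      tp (Sum.elim (sn b x) (fun _ : Fin 1 => y))) :
    tp (Sum.elim b ![x, z]) = tp (Sum.elim b ![x, y]) := by
  let f : Fin m ⊕ Fin 2 → Fin (m + 1) ⊕ Fin 1 :=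
    Sum.elim (fun i => Sum.inl i.castSucc) ![Sum.inl (Fin.last m), Sum.inr 0]
  have hf : ∀ w : L, (fun t => Sum.elim (sn b x) (fun _ : Fin 1 => w) (f t)) =
      Sum.elim b ![x, w] := by
    intro w
    funext t
    rcases t with i | i
    · exact sn_castSucc b x i
    · fin_cases i
      · exact sn_last b x
      · rfl
  have := tp_eq_comp h f
  rw [hf, hf] at this
  exact this

theorem existsStrange_of_diamond (hD : Diamond) : MP_b18e8e_lc.ExistsStrange (ℵ₁ : Cardinal.{0}) := by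
  classical
  obtain ⟨D, hD⟩ := hD
  -- the coding
  have hcard : #(Option (Om × ℕ)) = #Om := by
    rw [Cardinal.mk_option, Cardinal.mk_prod, mk_Om]
    simp
  obtain ⟨π⟩ := Cardinal.eq.1 hcard
  let A : Om → Set (Option (Om × ℕ)) := fun δ => {o | π o ∈ D δ}
  obtain ⟨a, haJ⟩ := App.exists_top (A := A) countable_Iio
  have hJ : ∀ i, i ∈ a.J := fun i => haJ ▸ LowerSet.mem_top
  let G : Type := Lv a.J
  let E : G ≃ Option (Om × ℕ) :=
    { toFun := fun x => x.1
      invFun := fun o => ⟨o, fun p _ => hJ p.1⟩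
      left_inv := fun _ => rfl
      right_inv := fun _ => rfl }
  have hGcard : #G = ℵ₁ := by
    rw [Cardinal.mk_congr E, hcard, mk_Om]
  refine ⟨G, a.grp, hGcard, ?_⟩
  intro H hgood hHcard
  -- representatives of types
  let rep : ∀ n : ℕ, (Fin n → G) → Subgroup (FreeGroup (Fin n ⊕ Fin 1)) → G := fun n b t =>
    if h : ∃ g ∈ H, tp (Sum.elim b (fun _ : Fin 1 => g)) = t then h.choose else 1
  have hrep : ∀ n b, ∀ g ∈ H, rep n b (tp (Sum.elim b (fun _ : Fin 1 => g))) ∈ H ∧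
      tp (Sum.elim b (fun _ : Fin 1 => rep n b (tp (Sum.elim b (fun _ : Fin 1 => g))))) =
        tp (Sum.elim b (fun _ : Fin 1 => g)) := by
    intro n b g hg
    have h : ∃ g' ∈ H, tp (Sum.elim b (fun _ : Fin 1 => g')) =
        tp (Sum.elim b (fun _ : Fin 1 => g)) := ⟨g, hg, rfl⟩
    simp only [rep, dif_pos h]
    exact h.choose_spec
  -- countability of levels
  let W : Om → Set G := fun i => {x | ∀ p ∈ x.1, p.1 ≤ i}
  have hW : ∀ i, (W i).Countable := by
    intro i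
    have h1 : (Set.Iic i ×ˢ (Set.univ : Set ℕ)).Countable :=
      (countable_Iic i).prod Set.countable_univ
    have h2 : (insert none (some '' (Set.Iic i ×ˢ (Set.univ : Set ℕ)))).Countable :=
      (h1.image _).insert _
    have h3 : W i ⊆ E ⁻¹' (insert none (some '' (Set.Iic i ×ˢ (Set.univ : Set ℕ)))) := by
      rintro ⟨_ | p, hx⟩ h
      · exact Set.mem_insert _ _
      · exact Set.mem_insert_of_mem _ ⟨p, ⟨h p rfl, Set.mem_univ _⟩, rfl⟩
    exact (h2.preimage E.injective).mono h3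
  let B : Om → Set Om := fun i =>
    ((fun x : G => π x.1) '' W i) ∪ {j | ∃ p ∈ π.symm i, p.1 = j} ∪
      ⋃ n : ℕ, ⋃ b ∈ {b : Fin n → G | ∀ m, b m ∈ W i}, ⋃ t ∈ finTypes (Fin n ⊕ Fin 1),
        {j | ∃ p ∈ (rep n b t).1, p.1 = j}
  have hopt : ∀ o : Option (Om × ℕ), {j | ∃ p ∈ o, p.1 = j}.Countable := by
    rintro (_ | p)
    · convert Set.countable_empty
      ext j
      simp
    · have : {j | ∃ q ∈ some p, q.1 = j} ⊆ {p.1} := by
        rintro j ⟨q, hq, rfl⟩
        cases hq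
        rfl
      exact (Set.countable_singleton _).mono this
  have hB : ∀ i, (B i).Countable := by
    intro i
    refine ((((hW i).image _).union (hopt _))).union ?_
    refine Set.countable_iUnion fun n => ?_
    refine Set.Countable.biUnion ?_ fun b _ => ?_
    · have : {b : Fin n → G | ∀ m, b m ∈ W i} = Set.pi Set.univ (fun _ => W i) := by
        ext b
        simp
      rw [this]
      exact Set.countable_univ_pi fun _ => hW i
    · exact Set.Countable.biUnion (countable_finTypes _) fun t _ => hopt _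
  set C : Set Om := {δ | (∃ i, i < δ) ∧ ∀ i < δ, ∀ x ∈ B i, x < δ} with hC
  have hclub : IsClub C := isClub_closure B hB
  obtain ⟨δ, ⟨⟨i₀, hi₀⟩, hδ⟩, hXD⟩ := hD {i | ∃ g ∈ H, π g.1 = i} C hclub
  -- properties of `δ`
  have hV1 : ∀ x : G, x ∈ Vs a.J δ → π x.1 < δ := by
    rintro ⟨_ | p, hx⟩ h
    · exact hδ i₀ hi₀ _ (Or.inl (Or.inl ⟨⟨none, hx⟩, (fun p hp => by cases hp), rfl⟩))
    · have hp : p.1 < δ := h p rfl
      refine hδ p.1 hp _ (Or.inl (Or.inl ⟨⟨some p, hx⟩, ?_, rfl⟩))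
      intro q hq
      cases hq
      exact le_rfl
  have hV2 : ∀ x : G, π x.1 < δ → x ∈ Vs a.J δ := by
    intro x hx p hp
    refine hδ (π x.1) hx _ (Or.inl (Or.inr ⟨p, ?_, rfl⟩))
    rw [Equiv.symm_apply_apply]
    exact hp
  have hAs : ∀ x : G, x ∈ As A a.J δ ↔ x ∈ Vs a.J δ ∧ x ∈ H := by
    intro x
    constructor
    · rintro ⟨h1, h2⟩
      refine ⟨h1, ?_⟩
      have h3 : π x.1 ∈ D δ := h2
      rw [← hXD] at h3
      obtain ⟨⟨g, hg, hgx⟩, -⟩ := h3
      have : g = x := Subtype.ext (π.injective hgx)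
      exact this ▸ hg
    · rintro ⟨h1, h2⟩
      refine ⟨h1, ?_⟩
      change π x.1 ∈ D δ
      rw [← hXD]
      exact ⟨⟨x, h2, rfl⟩, hV1 x h1⟩
  have hE1 : ∀ (n : ℕ) (b : Fin n → G), (∀ m, b m ∈ Vs a.J δ) → ∀ y ∈ H, ∃ z : G,
      z ∈ As A a.J δ ∧ tp (Sum.elim b (fun _ : Fin 1 => z)) =
        tp (Sum.elim b (fun _ : Fin 1 => y)) := by
    intro n b hb y hy
    obtain ⟨h1, h2⟩ := hrep n b y hy
    set t := tp (Sum.elim b (fun _ : Fin 1 => y)) with ht
    refine ⟨rep n b t, (hAs _).2 ⟨?_, h1⟩, h2⟩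
    -- a common bound of the levels
    have hbd : ∃ i < δ, ∀ m, b m ∈ W i := by
      have hone : ∀ x : G, x ∈ Vs a.J δ → ∃ i < δ, x ∈ W i := by
        rintro ⟨_ | p, hx⟩ h
        · exact ⟨i₀, hi₀, fun p hp => by cases hp⟩
        · refine ⟨p.1, h p rfl, ?_⟩
          intro q hq
          cases hq
          exact le_rfl
      choose f hf1 hf2 using fun m => hone (b m) (hb m)
      obtain ⟨m₀, -, hm₀⟩ := Finset.exists_max_image (Finset.univ : Finset (Option (Fin n)))
        (fun m => m.elim i₀ f) ⟨none, Finset.mem_univ _⟩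
      refine ⟨m₀.elim i₀ f, ?_, ?_⟩
      · rcases m₀ with _ | m
        · exact hi₀
        · exact hf1 m
      · intro m p hp
        exact (hf2 m p hp).trans (hm₀ (some m) (Finset.mem_univ _))
    obtain ⟨i, hi, hbi⟩ := hbd
    intro p hp
    refine hδ i hi _ (Or.inr ?_)
    simp only [Set.mem_iUnion]
    refine ⟨n, b, hbi, t, ?_, p, hp, rfl⟩
    exact tp_mem_finTypes _ (a.lf _ (Set.finite_range _))
  -- an element of `H` outside `V`
  have hVc : (Vs a.J δ).Countable := by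
    refine (hW δ).mono ?_
    intro x hx p hp
    exact (hx p hp).le
  have hyex : ∃ y ∈ H, y ∉ Vs a.J δ := by
    by_contra hcon
    push Not at hcon
    have h1 : H.Countable := hVc.mono hcon
    have h2 : #H ≤ ℵ₀ := by
      rw [Cardinal.mk_le_aleph0_iff]
      exact h1.to_subtype
    rw [hHcard] at h2
    exact absurd h2 (not_le.2 Cardinal.aleph0_lt_aleph_one)
  obtain ⟨y, hyH, hyV⟩ := hyex
  obtain ⟨V, hV⟩ := a.sub δ (hJ δ)
  have hclos : ∀ {n : ℕ} (b : Fin n → G), (∀ m, b m ∈ Vs a.J δ) →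
      y ∉ Subgroup.closure (Set.range b) := by
    intro n b hb h
    apply hyV
    rw [← hV]
    refine (?_ : Subgroup.closure (Set.range b) ≤ V) h
    rw [Subgroup.closure_le, hV]
    rintro _ ⟨m, rfl⟩
    exact hb m
  -- the first application
  obtain ⟨n, b, hb⟩ := exists_enum {x : G | x ∈ Subgroup.closure {y} ∧ x ∈ Vs a.J δ}
    ((a.lf {y} (Set.finite_singleton y)).subset fun x hx => hx.1)
  have hbadm : Adm (Vs a.J δ) b y := by
    refine ⟨Subgroup.closure {y}, a.lf {y} (Set.finite_singleton y),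
      Subgroup.subset_closure rfl, ?_, ?_⟩
    · intro i
      have : b i ∈ {x : G | x ∈ Subgroup.closure {y} ∧ x ∈ Vs a.J δ} := hb ▸ ⟨i, rfl⟩
      exact this
    · intro e he heV
      have : e ∈ Set.range b := hb ▸ ⟨he, heV⟩
      exact this
  have R0 : ∀ (n : ℕ) (b : Fin n → G), Adm (Vs a.J δ) b y →
      (∃ x : Fin 2 → G, (∀ i, x i ∈ As A a.J δ) ∧
        tp (Sum.elim b (sn x y)) = sT (sn (![3, 1] : Fin 2 → ZMod 4) 0) b y) ∨
      ∃ (m : ℕ) (b' : Fin m → G), Adm (Vs a.J δ) b' y ∧ ∀ x : Fin 2 → G,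
        (∀ i, x i ∈ As A a.J δ) → tp (Sum.elim b' x) ≠ sT (![3, 1] : Fin 2 → ZMod 4) b' y :=
    fun n b hb => a.real δ (hJ δ) false y hyV n b hb
  have R1 : ∀ (n : ℕ) (b : Fin n → G), Adm (Vs a.J δ) b y →
      (∃ x : Fin 1 → G, (∀ i, x i ∈ As A a.J δ) ∧
        tp (Sum.elim b (sn x y)) = sT (sn (![2] : Fin 1 → ZMod 4) 0) b y) ∨
      ∃ (m : ℕ) (b' : Fin m → G), Adm (Vs a.J δ) b' y ∧ ∀ x : Fin 1 → G,
        (∀ i, x i ∈ As A a.J δ) → tp (Sum.elim b' x) ≠ sT (![2] : Fin 1 → ZMod 4) b' y :=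
    fun n b hb => a.real δ (hJ δ) true y hyV n b hb
  rcases R0 n b hbadm with ⟨x, hx, hx'⟩ | ⟨m, b', hb', hneg⟩
  · -- a bad triple
    obtain ⟨_, _, _, h2, _⟩ := hbadm
    obtain ⟨h3, h4⟩ := bad_of_sT b x y (hclos b fun i => (h2 i).2) hx'
    exact h4 (hgood _ ((hAs _).1 (hx 0)).2 _ hyH _ ((hAs _).1 (hx 1)).2 h3)
  · obtain ⟨_, _, _, hb'V, _⟩ := id hb'
    rcases R1 m b' hb' with ⟨x, hx, hx'⟩ | ⟨m', b'', hb'', hneg'⟩
    · -- a special pair
      have hx0 := hx 0
      have e1 : tp (Sum.elim b' ![x 0, y]) = sT (![3, 1] : Fin 2 → ZMod 4) b' y := by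
        have e2 : sn x y = ![x 0, y] := by
          funext i
          fin_cases i <;> rfl
        have e3 : (![3, 1] : Fin 2 → ZMod 4) =
            fun i => 1 + (sn (![2] : Fin 1 → ZMod 4) 0 : Fin 2 → ZMod 4) i := by
          funext i
          fin_cases i <;> rfl
        rw [e3, sT_shift]
        rw [← e2]
        exact hx'
      obtain ⟨z, hz, hz'⟩ := hE1 (m + 1) (sn b' (x 0)) (by
        intro i
        refine Fin.lastCases ?_ ?_ i
        · rw [sn_last]
          exact hx0.1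
        · intro i
          rw [sn_castSucc]
          exact (hb'V i).2) y hyH
      have e4 := tp_shift b' (x 0) y z hz'
      apply hneg ![x 0, z] ?_ (e4.trans e1)
      intro i
      fin_cases i
      · exact hx0
      · exact hz
    · obtain ⟨_, _, _, hb''V, _⟩ := id hb''
      obtain ⟨z, hz, hz'⟩ := hE1 m' b'' (fun i => (hb''V i).2) y hyH
      apply hneg' (fun _ => z) (fun _ => hz)
      rw [sT_one]
      exact hz'

end Pool.Agent.Lib.MP_b18e8e_lc_Diamond
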