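import Pool.Agent.Lib.MP_b18e8e_lc_Diamond.Main

/-!
# Diamond gives a strange group of cardinality `ℵ₁`
-/

set_option autoImplicit false

namespace Pool.Agent.Lib.MP_b18e8e_lc_Diamond.Result1

open Cardinal Pool.Agent.Lib.MP_b18e8e_lc Pool.Agent.Lib.MP_b18e8e_lc_Diamond

/-- If Jensen's principle `♢` holds (as it does in Goedel's constructible universe), then there is
a strange group of cardinality `ℵ₁`: a group of cardinality `ℵ₁` in which every good subset has
cardinality different from `ℵ₁`. -/
theorem result : Diamond → ExistsStrange (ℵ₁ : Cardinal.{0}) :=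
  existsStrange_of_diamond

end Pool.Agent.Lib.MP_b18e8e_lc_Diamond.Result1
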