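import Pool.Agent.Lib.MP_b18e8e_lc_Diamond.Wr

/-!
# Special types
-/

set_option autoImplicit false

namespace Pool.Agent.Lib.MP_b18e8e_lc_Diamond

open Wr

section

variable {P P₂ : Type*} [Group P] [Group P₂]

/-- The base point of `P ⧸ F`. -/
def bp (F : Subgroup P) : P ⧸ F := ((1 : P) : P ⧸ F)

theorem smul_bp (F : Subgroup P) (y : P) : y • bp F = (y : P ⧸ F) := by
  rw [bp, MulAction.Quotient.smul_coe, smul_eq_mul, mul_one]

theorem smul_bp_eq_iff (F : Subgroup P) (y : P) : y • bp F = bp F ↔ y ∈ F := by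
  rw [smul_bp, bp, QuotientGroup.eq]
  simp

/-- The type over `b` of the conjugates of `y` by base elements at the coset of `F`. -/
noncomputable def sTF (F : Subgroup P) {k n : ℕ} (s : Fin k → ZMod 4) (b : Fin n → P) (y : P) :
    Subgroup (FreeGroup (Fin n ⊕ Fin k)) :=
  tp (Sum.elim (fun i => (inr (b i) : Wr P (P ⧸ F))) (fun i => cj (bp F) (s i) y))

/-- The map of coset spaces induced by a homomorphism. -/
noncomputable def qmap (φ : P →* P₂) (F : Subgroup P) (F₂ : Subgroup P₂)
    (h : F ≤ F₂.comap φ) : P ⧸ F → P₂ ⧸ F₂ :=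
  Quotient.map' φ (by
    intro a b hab
    rw [QuotientGroup.leftRel_apply] at hab ⊢
    have := h hab
    rwa [Subgroup.mem_comap, map_mul, map_inv] at this)

theorem qmap_mk (φ : P →* P₂) (F : Subgroup P) (F₂ : Subgroup P₂)
    (h : F ≤ F₂.comap φ) (p : P) : qmap φ F F₂ h (p : P ⧸ F) = (φ p : P₂ ⧸ F₂) := rfl

theorem qmap_smul (φ : P →* P₂) (F : Subgroup P) (F₂ : Subgroup P₂)
    (h : F ≤ F₂.comap φ) (p : P) (x : P ⧸ F) :
    qmap φ F F₂ h (p • x) = φ p • qmap φ F F₂ h x := by
  induction x using QuotientGroup.induction_on with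
  | H x =>
    rw [MulAction.Quotient.smul_coe, qmap_mk, qmap_mk, MulAction.Quotient.smul_coe, smul_eq_mul,
      smul_eq_mul, map_mul]

theorem qmap_bp (φ : P →* P₂) (F : Subgroup P) (F₂ : Subgroup P₂)
    (h : F ≤ F₂.comap φ) : qmap φ F F₂ h (bp F) = bp F₂ := by
  rw [bp, qmap_mk, map_one, bp]

theorem qmap_injective (φ : P →* P₂) (F : Subgroup P) (F₂ : Subgroup P₂)
    (h : F ≤ F₂.comap φ) (h' : F₂.comap φ ≤ F) : Function.Injective (qmap φ F F₂ h) := by
  intro x y
  induction x using QuotientGroup.induction_on with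
  | H x =>
    induction y using QuotientGroup.induction_on with
    | H y =>
      intro hxy
      rw [qmap_mk, qmap_mk, QuotientGroup.eq] at hxy
      rw [QuotientGroup.eq]
      apply h'
      rwa [Subgroup.mem_comap, map_mul, map_inv]

theorem sTF_map (φ : P →* P₂) (hφ : Function.Injective φ) (F : Subgroup P) (F₂ : Subgroup P₂)
    (h : F₂.comap φ = F) {k n : ℕ} (s : Fin k → ZMod 4) (b : Fin n → P) (y : P) :
    sTF F₂ s (fun i => φ (b i)) (φ y) = sTF F s b y := by
  have hle : F ≤ F₂.comap φ := h.ge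
  rw [sTF, sTF, ← tp_map (Wr.map φ (qmap φ F F₂ hle) 1 (qmap_smul φ F F₂ hle))
    (Wr.map_injective _ _ _ hφ (qmap_injective φ F F₂ hle h.le))]
  congr 1
  funext x
  rcases x with i | i
  · simp only [Sum.elim_inl, Wr.map_inr]
  · simp only [Sum.elim_inr, Wr.map_cj, qmap_bp, one_mul]

/-- The special type of `y` over the tuple `b` for the exponents `s`. -/
noncomputable def sT {k n : ℕ} (s : Fin k → ZMod 4) (b : Fin n → P) (y : P) :
    Subgroup (FreeGroup (Fin n ⊕ Fin k)) :=
  sTF (Subgroup.closure (Set.range b)) s b y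

theorem sT_map (φ : P →* P₂) (hφ : Function.Injective φ) {k n : ℕ} (s : Fin k → ZMod 4)
    (b : Fin n → P) (y : P) : sT s (fun i => φ (b i)) (φ y) = sT s b y := by
  apply sTF_map φ hφ
  have : Set.range (fun i => φ (b i)) = φ '' Set.range b := by
    rw [← Set.range_comp]; rfl
  rw [this, ← MonoidHom.map_closure, Subgroup.comap_map_eq_self_of_injective hφ]

theorem sTF_comap (F : Subgroup P) {k m n : ℕ} (s : Fin k → ZMod 4) (b : Fin n → P)
    (r : Fin m → Fin n) (y : P) :
    sTF F s (fun i => b (r i)) y = (sTF F s b y).comap (FreeGroup.map (Sum.map r id)) := by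
  rw [sTF, sTF, ← tp_comp]
  congr 1
  funext x
  rcases x with i | i <;> rfl

theorem sT_restrict {k m n : ℕ} (s : Fin k → ZMod 4) (b : Fin n → P)
    (r : Fin m → Fin n) (y : P)
    (h : ∀ g ∈ Subgroup.closure (insert y (Set.range (fun i => b (r i)))),
      g ∈ Subgroup.closure (Set.range b) → g ∈ Subgroup.closure (Set.range (fun i => b (r i)))) :
    sT s (fun i => b (r i)) y = (sT s b y).comap (FreeGroup.map (Sum.map r id)) := by
  rw [sT, sT, ← sTF_comap]
  set Q := Subgroup.closure (insert y (Set.range (fun i => b (r i)))) with hQ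
  have hy : y ∈ Q := Subgroup.subset_closure (Set.mem_insert _ _)
  have hb : ∀ i, b (r i) ∈ Q := fun i => Subgroup.subset_closure (Set.mem_insert_of_mem _ ⟨i, rfl⟩)
  have e1 := sTF_map Q.subtype Q.subtype_injective
    ((Subgroup.closure (Set.range (fun i => b (r i)))).comap Q.subtype)
    (Subgroup.closure (Set.range (fun i => b (r i)))) rfl s (fun i => (⟨b (r i), hb i⟩ : Q)) ⟨y, hy⟩
  have e2 := sTF_map Q.subtype Q.subtype_injective
    ((Subgroup.closure (Set.range (fun i => b (r i)))).comap Q.subtype)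
    (Subgroup.closure (Set.range b)) (by
      ext g
      rw [Subgroup.mem_comap, Subgroup.mem_comap]
      constructor
      · intro hg
        exact h _ g.2 hg
      · intro hg
        refine Subgroup.closure_mono ?_ hg
        rintro _ ⟨i, rfl⟩
        exact ⟨r i, rfl⟩) s (fun i => (⟨b (r i), hb i⟩ : Q)) ⟨y, hy⟩
  exact e1.trans e2.symm

theorem sT_shift {k n : ℕ} (s : Fin k → ZMod 4) (b : Fin n → P) (y : P) (c : ZMod 4) :
    sT (fun i => c + s i) b y = sT s b y := by
  rw [sT, sT, sTF, sTF]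
  set F := Subgroup.closure (Set.range b) with hF
  rw [← tp_map (MulAut.conj (vv (bp F) c : Wr P (P ⧸ F))).toMonoidHom
    (MulAut.conj _).injective (Sum.elim (fun i => inr (b i)) fun i => cj (bp F) (s i) y)]
  congr 1
  funext x
  rcases x with i | i
  · simp only [Sum.elim_inl, MulEquiv.toMonoidHom_eq_coe, MonoidHom.coe_coe,
      MulAut.conj_apply]
    have := cj_fix (bp F) c (b i) ((smul_bp_eq_iff F (b i)).2 (Subgroup.subset_closure ⟨i, rfl⟩))
    exact this.symm
  · simp only [Sum.elim_inr, MulEquiv.toMonoidHom_eq_coe, MonoidHom.coe_coe,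
      MulAut.conj_apply, vv_conj_cj]

theorem sT_zero {n : ℕ} (b : Fin n → P) (y : P) :
    sT (fun _ : Fin 1 => 0) b y = tp (Sum.elim b (fun _ : Fin 1 => y)) := by
  rw [sT, sTF]
  simp only [cj_zero]
  have := tp_map (inr : P →* Wr P (P ⧸ Subgroup.closure (Set.range b))) inr_injective
    (Sum.elim b (fun _ : Fin 1 => y))
  rw [← this]
  congr 1
  funext x
  rcases x with i | i <;> rfl

theorem sT_one {n : ℕ} (s : Fin 1 → ZMod 4) (b : Fin n → P) (y : P) :
    sT s b y = tp (Sum.elim b (fun _ : Fin 1 => y)) := by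
  rw [← sT_zero]
  have := sT_shift (fun _ : Fin 1 => 0) b y (s 0)
  rw [← this]
  congr 1
  funext i
  rw [Subsingleton.elim i 0, add_zero]

/-- The strength property of the wreath product extension. -/
theorem wr_strong {k : ℕ} (F : Subgroup P) (s : Fin k → ZMod 4) (c : ZMod 4)
    (hs : ∀ i, c * s i = 2) (y : P) (B : Subgroup P) (hB : F ≤ B) (p : P)
    (h : (inr p : Wr P (P ⧸ F)) ∈
      B.map inr ⊔ Subgroup.closure (Set.range (fun i => cj (bp F) (s i) y))) : p ∈ B := by
  have hle : F ≤ B.comap (MonoidHom.id P) := hB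
  set φ := Wr.map (MonoidHom.id P) (qmap (MonoidHom.id P) F B hle) c
    (qmap_smul (MonoidHom.id P) F B hle) with hφ
  -- all elements are mapped to conjugates of top elements
  set u : Wr P (P ⧸ B) := vv (bp B) 2 with hu
  have key : B.map inr ⊔ Subgroup.closure (Set.range (fun i => cj (bp F) (s i) y)) ≤
      ((MonoidHom.range (inr : P →* Wr P (P ⧸ B))).map
        (MulAut.conj u).toMonoidHom).comap φ := by
    rw [sup_le_iff]
    constructor
    · rintro _ ⟨b, hb, rfl⟩
      rw [Subgroup.mem_comap, hφ, Wr.map_inr]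
      refine ⟨inr b, ⟨b, rfl⟩, ?_⟩
      have := cj_fix (bp B) 2 b ((smul_bp_eq_iff B b).2 hb)
      exact this
    · rw [Subgroup.closure_le]
      rintro _ ⟨i, rfl⟩
      change φ (cj (bp F) (s i) y) ∈ ((MonoidHom.range (inr : P →* Wr P (P ⧸ B))).map
        (MulAut.conj u).toMonoidHom)
      rw [hφ, Wr.map_cj, hs i, qmap_bp]
      exact ⟨inr y, ⟨y, rfl⟩, rfl⟩
  have h1 := key h
  rw [Subgroup.mem_comap, hφ, Wr.map_inr] at h1
  obtain ⟨_, ⟨q, rfl⟩, hq⟩ := h1
  change cj (bp B) 2 q = inr p at hq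
  have hr := congrArg Wr.r hq
  rw [cj_r] at hr
  change q = p at hr
  subst hr
  have hl := congrArg Wr.l hq
  rw [cj_l, inr_l] at hl
  by_contra hqB
  have hne : q • bp B ≠ bp B := fun e => hqB ((smul_bp_eq_iff B q).1 e)
  have := congrArg (fun f : (P ⧸ B) →₀ ZMod 4 => f (bp B)) hl
  simp only [Finsupp.sub_apply, Finsupp.single_eq_same, Finsupp.zero_apply] at this
  rw [Finsupp.single_eq_of_ne (by exact hne.symm)] at this
  exact absurd this (by decide)

end

end Pool.Agent.Lib.MP_b18e8e_lc_Diamond
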