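import Pool.Agent.Lib.MP_b18e8e_lc_Diamond.Cond

/-!
# Density lemmas for conditions
-/

set_option autoImplicit false

namespace Pool.Agent.Lib.MP_b18e8e_lc_Diamond

open Wr

theorem exists_enum {α : Type*} (T : Set α) (hT : T.Finite) :
    ∃ (n : ℕ) (b : Fin n → α), Set.range b = T := by
  have := hT.to_subtype
  obtain ⟨n, ⟨e⟩⟩ := Finite.exists_equiv_fin T
  refine ⟨n, fun i => (e.symm i : α), ?_⟩
  ext x
  constructor
  · rintro ⟨i, rfl⟩
    exact (e.symm i).2
  · intro hx
    exact ⟨e ⟨x, hx⟩, by simp⟩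

namespace Cond

variable {K : Type} [Group K]

instance : Nonempty (Cond K) := by
  classical
  let U : Finset (K ⊕ ℕ) := {Sum.inl 1}
  have hm : ∀ x : U, x = ⟨Sum.inl 1, by simp [U]⟩ := by
    rintro ⟨x, hx⟩
    apply Subtype.ext
    simpa [U] using hx
  have hinl : ∀ a : K, Sum.inl a ∈ U ↔ a = 1 := by
    intro a
    simp [U]
  let e : U ≃ Unit :=
    { toFun := fun _ => ()
      invFun := fun _ => ⟨Sum.inl 1, by simp [U]⟩
      left_inv := fun x => (hm x).symm
      right_inv := fun _ => rfl }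
  let _ : Group U := e.group
  exact ⟨{ U := U
           grp := e.group
           one_mem := by simp [U]
           inv_mem := by
            intro a ha
            rw [hinl] at ha ⊢
            rw [ha, inv_one]
           compat := by
            intro a b ha hb
            have ha' := (hinl a).1 ha
            have hb' := (hinl b).1 hb
            have hab : Sum.inl (a * b) ∈ U := by rw [hinl, ha', hb', mul_one]
            refine ⟨hab, ?_⟩
            rw [hm (_ * _), hm ⟨Sum.inl (a * b), hab⟩] }⟩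

theorem exists_add (hK : LF K) (c : Cond K) (k : K) : ∃ c' : Cond K, c ≤ c' ∧ Sum.inl k ∈ c'.U := by
  set E' : Subgroup K := Subgroup.closure (insert k (c.E : Set K)) with hE'
  have hE : c.E ≤ E' := by
    intro x hx
    exact Subgroup.subset_closure (Set.mem_insert_of_mem _ hx)
  have hfin : Finite E' := by
    have : (c.E : Set K).Finite := Set.finite_coe_iff.mp (inferInstance : Finite c.E)
    exact (hK _ (this.insert k)).to_subtype
  obtain ⟨R, _, _, j, l, hj, hl, hc, hs⟩ := exists_amalgam c.κ (Subgroup.inclusion hE)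
    c.κ_injective (Subgroup.inclusion_injective hE)
  obtain ⟨c', hle, θ, -, h2, -, -⟩ := c.exists_ext E' R j hj l hl hE (fun e => (hc e).symm) (by
    intro u k' huk
    have h1 : u ∈ c.κ.range := by
      refine hs c.κ.range le_rfl u ?_
      apply Subgroup.mem_sup_right
      exact ⟨k', huk.symm⟩
    obtain ⟨e, rfl⟩ := h1
    rw [hc e] at huk
    rw [← hl huk]
    exact e.2) 0
  obtain ⟨h, -⟩ := h2 ⟨k, Subgroup.subset_closure (Set.mem_insert _ _)⟩
  exact ⟨c', hle, h⟩

theorem exists_num (c : Cond K) (n : ℕ) : ∃ c' : Cond K, c ≤ c' ∧ Sum.inr n ∈ c'.U := by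
  let j : c.U →* c.U × Multiplicative (ZMod 2) := MonoidHom.inl _ _
  have hj : Function.Injective j := fun a b h => congrArg Prod.fst h
  obtain ⟨c', hle, θ, -, -, -, h4⟩ := c.exists_ext c.E (c.U × Multiplicative (ZMod 2)) j hj
    (j.comp c.κ) (hj.comp c.κ_injective) le_rfl (fun e => rfl) (by
      intro u k huk
      exact k.2) n
  refine ⟨c', hle, h4 ⟨(1, Multiplicative.ofAdd 1), ?_, ?_⟩⟩
  · rintro ⟨u, hu⟩
    have h1 : (1 : Multiplicative (ZMod 2)) = Multiplicative.ofAdd 1 := congrArg Prod.snd hu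
    exact absurd h1 (by decide)
  · rintro ⟨u, hu⟩
    have h1 : (1 : Multiplicative (ZMod 2)) = Multiplicative.ofAdd 1 := congrArg Prod.snd hu
    exact absurd h1 (by decide)

variable {k : ℕ}

/-- The condition `c'` settles the task given by `l`, `y` and `b`. -/
def Done (s : Fin k → ZMod 4) (V A : Set K) (c₀ : Cond K) (Q : Type) [Group Q] (l : c₀.U →* Q)
    (y : Q) {n : ℕ} (b : Fin n → c₀.U) (c' : Cond K) (hle : c₀ ≤ c') : Prop :=
  ∃ (P' : Type) (_ : Group P') (_ : Finite P') (j : Q →* P') (ι : c'.U →* P'),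
    Function.Injective j ∧ Function.Injective ι ∧ (∀ u, ι (incHom hle u) = j (l u)) ∧
    (∀ B : Subgroup Q, l.range ≤ B → ∀ q, j q ∈ B.map j ⊔ ι.range → q ∈ B) ∧
    ((∃ x : Fin k → K, (∀ i, x i ∈ A) ∧ ∃ hx : ∀ i, Sum.inl (x i) ∈ c'.U,
      tp (Sum.elim (fun i => j (l (b i))) (sn (fun i => ι ⟨Sum.inl (x i), hx i⟩) (j y))) =
        sT (sn s 0) (fun i => l (b i)) y) ∨
    (∃ (m : ℕ) (b' : Fin m → K) (hb' : ∀ i, Sum.inl (b' i) ∈ c'.U), (∀ i, b' i ∈ V) ∧
      (∀ a ∈ V, Sum.inl a ∈ c'.U → ∃ i, b' i = a) ∧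
      ∀ x : Fin k → K, (∀ i, x i ∈ A) →
        tp (Sum.elim b' x) ≠ sT s (fun i => ι ⟨Sum.inl (b' i), hb' i⟩) (j y)))

theorem task_cofinal (s : Fin k → ZMod 4) (V : Subgroup K) (A : Set K)
    (hG : Gen s K V A) (c₀ : Cond K) (Q : Type) [Group Q] [Finite Q] (l : c₀.U →* Q)
    (hl : Function.Injective l) (y : Q) (hy : ∀ (a : K) (ha : Sum.inl a ∈ c₀.U), l ⟨_, ha⟩ ≠ y)
    {n : ℕ} (b : Fin n → c₀.U) (hb : ∀ i, ∃ a ∈ V, (b i : K ⊕ ℕ) = Sum.inl a)
    (hb' : ∀ a ∈ V, ∀ ha : Sum.inl a ∈ c₀.U, ∃ i, b i = ⟨_, ha⟩) (c : Cond K) (hc : c₀ ≤ c) :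
    ∃ (c' : Cond K) (_ : c ≤ c') (hle : c₀ ≤ c'), Done s V A c₀ Q l y b c' hle := by
  obtain ⟨R, _, _, j₃, l₃, hj₃, hl₃, hcomm, hstr⟩ := exists_amalgam l (incHom hc) hl
    (incHom_injective hc)
  let S : Spn K := { E := c.E, P := R, ε := c.E.subtype, ι := l₃.comp c.κ,
                     hε := c.E.subtype_injective, hι := hl₃.comp c.κ_injective }
  have hyS : j₃ y ∉ S.ι.range := by
    rintro ⟨e, he⟩
    have he' : l₃ (c.κ e) = j₃ y := he
    have h1 : y ∈ l.range := by
      refine hstr l.range le_rfl y ?_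
      apply Subgroup.mem_sup_right
      exact ⟨c.κ e, he'⟩
    obtain ⟨u₀, hu₀⟩ := h1
    rw [← hu₀, hcomm] at he'
    have h2 : c.κ e = incHom hc u₀ := hl₃ he'
    have h3 : (u₀ : K ⊕ ℕ) = Sum.inl (e : K) := by
      rw [← incHom_val hc u₀, ← h2, κ_val]
    have h4 : Sum.inl (e : K) ∈ c₀.U := h3 ▸ u₀.2
    apply hy e h4
    rw [← hu₀]
    congr 1
    exact Subtype.ext h3.symm
  obtain ⟨nK, bK, hbK⟩ := exists_enum {e : c.E | (e : K) ∈ V} (Set.toFinite _)
  have hbK1 : ∀ i, (bK i : K) ∈ V := fun i => by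
    have : bK i ∈ {e : c.E | (e : K) ∈ V} := hbK ▸ ⟨i, rfl⟩
    exact this
  have hbK2 : ∀ e : c.E, (e : K) ∈ V → ∃ i, bK i = e := fun e he => by
    have : e ∈ Set.range bK := hbK ▸ he
    exact this
  obtain ⟨S', h, hor⟩ := hG S (j₃ y) hyS nK bK hbK1 hbK2
  -- the new finite group
  let N : Subgroup S'.P := (l₃.range.map h.j) ⊔ S'.ι.range
  let jN : c.U →* N := (h.j.comp l₃).codRestrict N
    (fun u => Subgroup.mem_sup_left ⟨l₃ u, ⟨u, rfl⟩, rfl⟩)
  have hjN : ∀ u, (jN u : S'.P) = h.j (l₃ u) := fun u => rfl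
  let E'' : Subgroup K := S'.ε.range
  let inv : E'' →* S'.E := (MonoidHom.ofInjective S'.hε).symm.toMonoidHom
  have hinv : ∀ e, ∀ hk : S'.ε e ∈ E'', inv ⟨S'.ε e, hk⟩ = e := by
    intro e hk
    change (MonoidHom.ofInjective S'.hε).symm _ = _
    rw [MulEquiv.symm_apply_eq]
    rfl
  let ιN : E'' →* N := (S'.ι.comp inv).codRestrict N
    (fun u => Subgroup.mem_sup_right ⟨inv u, rfl⟩)
  have hιN : ∀ (x : E'') (e : S'.E), (x : K) = S'.ε e → (ιN x : S'.P) = S'.ι e := by
    rintro ⟨x, hx⟩ e h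
    change x = _ at h
    subst h
    change S'.ι (inv _) = _
    rw [hinv]
  have hεE : ∀ e : c.E, S'.ε (h.a e) = (e : K) := fun e => h.hε e
  have hE : c.E ≤ E'' := fun x hx => ⟨h.a ⟨x, hx⟩, hεE ⟨x, hx⟩⟩
  have hιa : ∀ e : c.E, S'.ι (h.a e) = h.j (l₃ (c.κ e)) := fun e => h.hι e
  obtain ⟨c', hle, θ, hθ1, hθ2, hθ3, -⟩ := c.exists_ext E'' N jN
    (by
      intro u v huv
      apply hl₃
      apply h.hj
      exact congrArg Subtype.val huv) ιN
    (by
      rintro ⟨_, ⟨e, rfl⟩⟩ ⟨_, ⟨f, rfl⟩⟩ hef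
      have := congrArg Subtype.val hef
      rw [hιN _ e rfl, hιN _ f rfl] at this
      apply Subtype.ext
      change S'.ε e = S'.ε f
      rw [S'.hι this]) hE
    (by
      intro e
      apply Subtype.ext
      rw [hιN _ (h.a e) (hεE e).symm, hjN, hιa])
    (by
      rintro u ⟨_, ⟨e, rfl⟩⟩ hue
      have h1 := congrArg Subtype.val hue
      rw [hιN _ e rfl, hjN] at h1
      have h2 : l₃ u ∈ S.ι.range := by
        refine h.strong S.ι.range le_rfl (l₃ u) ?_
        apply Subgroup.mem_sup_right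
        exact ⟨e, h1.symm⟩
      obtain ⟨f, hf⟩ := h2
      have hf' : l₃ (c.κ f) = l₃ u := hf
      have h3 : c.κ f = u := hl₃ hf'
      rw [← h3, ← hιa] at h1
      have h4 : h.a f = e := S'.hι h1
      change S'.ε e ∈ c.E
      rw [← h4, hεE]
      exact f.2) 0
  have hle' : c₀ ≤ c' := hc.trans hle
  refine ⟨c', hle, hle', S'.P, inferInstance, inferInstance, h.j.comp j₃,
    N.subtype.comp θ.toMonoidHom, h.hj.comp hj₃, N.subtype_injective.comp θ.injective, ?_, ?_, ?_⟩
  · intro u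
    have h1 : incHom hle' u = incHom hle (incHom hc u) := Subtype.ext rfl
    rw [h1]
    change ((θ (incHom hle (incHom hc u)) : N) : S'.P) = h.j (j₃ (l u))
    rw [hθ1, hjN, hcomm]
  · intro B hB q hq
    have h1 : j₃ q ∈ B.map j₃ ⊔ l₃.range := by
      refine h.strong (B.map j₃ ⊔ l₃.range) ?_ (j₃ q) ?_
      · refine le_trans ?_ le_sup_right
        rintro _ ⟨e, rfl⟩
        exact ⟨c.κ e, rfl⟩
      · refine (?_ : B.map (h.j.comp j₃) ⊔ (N.subtype.comp θ.toMonoidHom).range ≤ _) hq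
        refine sup_le ?_ ?_
        · refine le_trans ?_ le_sup_left
          rw [← Subgroup.map_map]
          exact Subgroup.map_mono le_sup_left
        · have h2 : (N.subtype.comp θ.toMonoidHom).range ≤ N := by
            rintro _ ⟨x, rfl⟩
            exact (θ x).2
          refine h2.trans ?_
          exact sup_le_sup (Subgroup.map_mono le_sup_right) le_rfl
    exact hstr B hB q h1
  · have hιval : ∀ e, ∀ hk : Sum.inl (S'.ε e) ∈ c'.U,
        (N.subtype.comp θ.toMonoidHom) ⟨Sum.inl (S'.ε e), hk⟩ = S'.ι e := by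
      intro e hk
      obtain ⟨h1, h2⟩ := hθ2 ⟨S'.ε e, ⟨e, rfl⟩⟩
      change ((θ ⟨Sum.inl (S'.ε e), hk⟩ : N) : S'.P) = _
      have h3 : (θ ⟨Sum.inl (S'.ε e), hk⟩ : N) = ιN ⟨S'.ε e, ⟨e, rfl⟩⟩ := h2
      rw [h3, hιN _ e rfl]
    have hmem : ∀ e, Sum.inl (S'.ε e) ∈ c'.U := fun e => (hθ2 ⟨S'.ε e, ⟨e, rfl⟩⟩).choose
    rcases hor with ⟨x, hx, hx'⟩ | ⟨m, c₁, hc₁, hc₁', hx⟩
    · left
      refine ⟨fun i => S'.ε (x i), hx, fun i => hmem _, ?_⟩
      have hr : ∀ i, ∃ i', c.κ (bK i') = incHom hc (b i) := by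
        intro i
        obtain ⟨a, haV, ha⟩ := hb i
        have hac : Sum.inl a ∈ c.U := by
          rw [← ha]
          exact (incHom hc (b i)).2
        obtain ⟨i', hi'⟩ := hbK2 ⟨a, hac⟩ haV
        refine ⟨i', ?_⟩
        rw [hi']
        apply Subtype.ext
        rw [incHom_val, ha, κ_val]
      choose r hr using hr
      have hSι : ∀ i, S.ι (bK (r i)) = j₃ (l (b i)) := by
        intro i
        change l₃ (c.κ (bK (r i))) = _
        rw [hr, hcomm]
      have e1 := congrArg (Subgroup.comap (FreeGroup.map (Sum.map r id))) hx'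
      rw [← tp_comp, ← sT_restrict (sn s 0) (fun i => S.ι (bK i)) r (j₃ y)] at e1
      · have e2 : (fun i => S.ι (bK (r i))) = fun i => j₃ (l (b i)) := funext hSι
        rw [e2] at e1
        rw [← sT_map j₃ hj₃, ← e1]
        congr 1
        funext z
        rcases z with i | i
        · simp only [Sum.elim_inl, Sum.map_inl, MonoidHom.comp_apply]
          rw [hSι]
        · simp only [Sum.elim_inr, Sum.map_inr, id]
          congr 1
          funext i
          exact hιval _ _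
      · -- the restriction condition
        intro g hg hg'
        have h1 : g ∈ j₃.range := by
          refine (?_ : Subgroup.closure _ ≤ j₃.range) hg
          rw [Subgroup.closure_le, Set.insert_subset_iff]
          refine ⟨⟨y, rfl⟩, ?_⟩
          rintro _ ⟨i, rfl⟩
          exact ⟨l (b i), (hSι i).symm⟩
        obtain ⟨q, rfl⟩ := h1
        have h2 : j₃ q ∈ (V.comap c.E.subtype).map S.ι := by
          refine (?_ : Subgroup.closure _ ≤ _) hg'
          rw [Subgroup.closure_le]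
          rintro _ ⟨i, rfl⟩
          exact ⟨bK i, hbK1 i, rfl⟩
        obtain ⟨e, heV, he⟩ := h2
        have heV' : (e : K) ∈ V := heV
        have he' : l₃ (c.κ e) = j₃ q := he
        have h3 : q ∈ l.range := by
          refine hstr l.range le_rfl q ?_
          apply Subgroup.mem_sup_right
          exact ⟨c.κ e, he'⟩
        obtain ⟨u₀, rfl⟩ := h3
        rw [hcomm] at he'
        have h4 : c.κ e = incHom hc u₀ := hl₃ he'
        have h5 : (u₀ : K ⊕ ℕ) = Sum.inl (e : K) := by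
          rw [← incHom_val hc u₀, ← h4, κ_val]
        have h6 : Sum.inl (e : K) ∈ c₀.U := h5 ▸ u₀.2
        obtain ⟨i, hi⟩ := hb' e heV' h6
        have h7 : u₀ = b i := by
          rw [hi]
          exact Subtype.ext h5
        apply Subgroup.subset_closure
        refine ⟨i, ?_⟩
        change S.ι (bK (r i)) = _
        rw [hSι, h7]
    · right
      refine ⟨m, fun i => S'.ε (c₁ i), fun i => hmem _, hc₁, ?_, ?_⟩
      · intro a haV ha
        obtain ⟨e, rfl⟩ := hθ3 a ha
        obtain ⟨i, rfl⟩ := hc₁' e haV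
        exact ⟨i, rfl⟩
      · intro x hxA heq
        apply hx x hxA
        rw [heq]
        congr 1
        funext i
        exact hιval _ _

end Cond

end Pool.Agent.Lib.MP_b18e8e_lc_Diamond
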