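import Pool.Agent.Lib.MP_b18e8e_lc_Diamond.ExtStep

/-!
# The tower of countable groups
-/

set_option autoImplicit false

namespace Pool.Agent.Lib.MP_b18e8e_lc_Diamond

/-- number of elements in the two patterns -/
def pk : Bool → ℕ
  | true => 1
  | false => 2

/-- exponents of the two patterns -/
def ps : ∀ t : Bool, Fin (pk t) → ZMod 4
  | true => ![2]
  | false => ![3, 1]

theorem ps_spec (t : Bool) : ∃ c : ZMod 4, ∀ i, c * ps t i = 2 := by
  rcases t with _ | _
  · refine ⟨2, ?_⟩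
    intro i
    change Fin 2 at i
    fin_cases i <;> decide
  · refine ⟨1, ?_⟩
    intro i
    change Fin 1 at i
    fin_cases i
    decide

section

variable {I : Type} [LinearOrder I]

/-- The universe of the group at stage `J`. -/
def Lv (J : LowerSet I) : Type := {o : Option (I × ℕ) // ∀ p ∈ o, p.1 ∈ J}

/-- The elements of level below `δ`. -/
def Vs (J : LowerSet I) (δ : I) : Set (Lv J) := {o | ∀ p ∈ o.1, p.1 < δ}

/-- The guessed set at level `δ`. -/
def As (A : I → Set (Option (I × ℕ))) (J : LowerSet I) (δ : I) : Set (Lv J) :=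
  {o | o ∈ Vs J δ ∧ o.1 ∈ A δ}

theorem As_subset (A : I → Set (Option (I × ℕ))) (J : LowerSet I) (δ : I) :
    As A J δ ⊆ Vs J δ := fun _ h => h.1

/-- inclusion of universes -/
def linc {J J' : LowerSet I} (h : J ≤ J') (x : Lv J) : Lv J' := ⟨x.1, fun p hp => h (x.2 p hp)⟩

theorem linc_injective {J J' : LowerSet I} (h : J ≤ J') : Function.Injective (linc h) := by
  intro x y hxy
  have h1 : x.1 = y.1 := congrArg (fun z : Lv J' => z.1) hxy
  exact Subtype.ext h1

theorem mem_range_linc {J J' : LowerSet I} (h : J ≤ J') (x : Lv J') :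
    x ∈ Set.range (linc h) ↔ ∀ p ∈ x.1, p.1 ∈ J := by
  constructor
  · rintro ⟨y, rfl⟩
    exact y.2
  · intro hx
    exact ⟨⟨x.1, hx⟩, rfl⟩

/-- Approximations of the final group. -/
structure App (A : I → Set (Option (I × ℕ))) where
  /-- the levels -/
  J : LowerSet I
  /-- the group structure -/
  grp : Group (Lv J)
  lf : LF (Lv J)
  sub : ∀ δ ∈ J, ∃ V : Subgroup (Lv J), (V : Set (Lv J)) = Vs J δ
  gen : ∀ δ ∈ J, ∀ t, Gen (ps t) (Lv J) (Vs J δ) (As A J δ)
  real : ∀ δ ∈ J, ∀ t, Real (ps t) (Lv J) (Vs J δ) (As A J δ)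

namespace App

variable {A : I → Set (Option (I × ℕ))}

instance (a : App A) : Group (Lv a.J) := a.grp

instance : LE (App A) := ⟨fun a b => ∃ h : a.J ≤ b.J, ∀ x y : Lv a.J,
  linc h (x * y) = linc h x * linc h y⟩

instance : Preorder (App A) where
  le_refl a := ⟨le_rfl, fun _ _ => rfl⟩
  le_trans a b c := by
    rintro ⟨h, h'⟩ ⟨g, g'⟩
    refine ⟨h.trans g, fun x y => ?_⟩
    change linc g (linc h (x * y)) = linc g (linc h x) * linc g (linc h y)
    rw [h', g']

/-- The inclusion homomorphism. -/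
def hom {a b : App A} (h : a ≤ b) : Lv a.J →* Lv b.J :=
  MonoidHom.mk' (linc h.choose) (fun x y => h.choose_spec x y)

theorem hom_apply {a b : App A} (h : a ≤ b) (x : Lv a.J) : (hom h x).1 = x.1 := rfl

instance : Nonempty (App A) := by
  have huniq : ∀ x : Lv (⊥ : LowerSet I), x = ⟨none, fun p hp => by cases hp⟩ := by
    rintro ⟨o, ho⟩
    apply Subtype.ext
    rcases o with _ | p
    · rfl
    · exact absurd (ho p rfl) (LowerSet.notMem_bot)
  let e : Lv (⊥ : LowerSet I) ≃ Unit :=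
    { toFun := fun _ => ()
      invFun := fun _ => ⟨none, fun p hp => by cases hp⟩
      left_inv := fun x => (huniq x).symm
      right_inv := fun _ => rfl }
  let g : Group (Lv (⊥ : LowerSet I)) := e.group
  have : Finite (Lv (⊥ : LowerSet I)) := Finite.of_equiv _ e.symm
  exact ⟨{ J := ⊥
           grp := g
           lf := lf_of_finite _
           sub := fun δ hδ => absurd hδ LowerSet.notMem_bot
           gen := fun δ hδ => absurd hδ LowerSet.notMem_bot
           real := fun δ hδ => absurd hδ LowerSet.notMem_bot }⟩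

theorem chain_bdd (c : Set (App A)) (hc : IsChain (· ≤ ·) c) : BddAbove c := by
  classical
  rcases c.eq_empty_or_nonempty with rfl | hne
  · exact ⟨Classical.arbitrary _, fun a ha => absurd ha (Set.notMem_empty a)⟩
  have dir : ∀ a ∈ c, ∀ b ∈ c, ∃ d ∈ c, a ≤ d ∧ b ≤ d := by
    intro a ha b hb
    rcases hc.total ha hb with h | h
    · exact ⟨b, hb, h, le_rfl⟩
    · exact ⟨a, ha, le_rfl, h⟩
  let J : LowerSet I := ⨆ a : {a : App A // a ∈ c}, a.1.J
  have hJ : ∀ a ∈ c, a.J ≤ J := fun a ha => le_iSup (fun a : {a : App A // a ∈ c} => a.1.J) ⟨a, ha⟩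
  have hJ' : ∀ i ∈ J, ∃ a ∈ c, i ∈ a.J := by
    intro i hi
    rw [LowerSet.mem_iSup_iff] at hi
    obtain ⟨⟨a, ha⟩, h⟩ := hi
    exact ⟨a, ha, h⟩
  have cov : ∀ x : Lv J, ∃ a ∈ c, ∀ p ∈ x.1, p.1 ∈ a.J := by
    rintro ⟨o, ho⟩
    rcases o with _ | p
    · obtain ⟨a, ha⟩ := hne
      exact ⟨a, ha, fun p hp => by cases hp⟩
    · obtain ⟨a, ha, h⟩ := hJ' p.1 (ho p rfl)
      refine ⟨a, ha, ?_⟩
      intro p' hp'
      cases hp'
      exact h
  have : Nonempty {a : App A // a ∈ c} := hne.to_subtype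
  obtain ⟨gJ, hgJ⟩ := glue (Ω := Lv J) (ι := {a : App A // a ∈ c}) (fun a => Lv a.1.J)
    (fun a => linc (hJ a.1 a.2)) (fun a => linc_injective _)
    (by
      rintro ⟨a, ha⟩ ⟨b, hb⟩
      obtain ⟨d, hd, had, hbd⟩ := dir a ha b hb
      exact ⟨⟨d, hd⟩, hom had, hom hbd, fun _ => rfl, fun _ => rfl⟩)
    (by
      intro x
      obtain ⟨a, ha, hx⟩ := cov x
      exact ⟨⟨a, ha⟩, ⟨x.1, hx⟩, rfl⟩)
  let ev : ∀ a : App A, ∀ ha : a ∈ c, (Lv a.J →* Lv J) := fun a ha =>
    MonoidHom.mk' (linc (hJ a ha)) (hgJ ⟨a, ha⟩)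
  have hev : ∀ a ha x, (ev a ha x).1 = x.1 := fun _ _ _ => rfl
  have hevi : ∀ a ha, Function.Injective (ev a ha) := fun a ha =>
    linc_injective (hJ a ha)
  have hevr : ∀ a ha x, x ∈ Set.range (ev a ha) ↔ ∀ p ∈ x.1, p.1 ∈ a.J := fun a ha x =>
    mem_range_linc (hJ a ha) x
  have covT : ∀ T : Set (Lv J), T.Finite → ∃ a, ∃ ha : a ∈ c, T ⊆ Set.range (ev a ha) := by
    intro T hT
    induction T, hT using Set.Finite.induction_on with
    | empty =>
      obtain ⟨a, ha⟩ := hne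
      exact ⟨a, ha, Set.empty_subset _⟩
    | @insert x T _ _ ih =>
      obtain ⟨a, ha, haT⟩ := ih
      obtain ⟨b, hb, hx⟩ := cov x
      obtain ⟨d, hd, had, hbd⟩ := dir a ha b hb
      refine ⟨d, hd, ?_⟩
      rw [Set.insert_subset_iff, hevr d hd]
      refine ⟨fun p hp => hbd.choose (hx p hp), fun z hz => ?_⟩
      rw [hevr d hd]
      intro p hp
      exact had.choose ((hevr a ha z).1 (haT hz) p hp)
  have covTδ : ∀ T : Set (Lv J), T.Finite → ∀ δ ∈ J, ∃ a, ∃ ha : a ∈ c,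
      T ⊆ Set.range (ev a ha) ∧ δ ∈ a.J := by
    intro T hT δ hδ
    obtain ⟨a, ha, haT⟩ := covT T hT
    obtain ⟨b, hb, hδb⟩ := hJ' δ hδ
    obtain ⟨d, hd, had, hbd⟩ := dir a ha b hb
    refine ⟨d, hd, ?_, hbd.choose hδb⟩
    intro z hz
    rw [hevr d hd]
    intro p hp
    exact had.choose ((hevr a ha z).1 (haT hz) p hp)
  have hVr : ∀ a ha, ∀ δ ∈ a.J, Vs J δ ⊆ Set.range (ev a ha) := by
    intro a ha δ hδ x hx
    rw [hevr a ha]
    intro p hp
    exact a.J.lower (hx p hp).le hδ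
  have hVp : ∀ a ha δ, ev a ha ⁻¹' (Vs J δ) = Vs a.J δ := fun _ _ _ => rfl
  have hAp : ∀ a ha δ, ev a ha ⁻¹' (As A J δ) = As A a.J δ := fun _ _ _ => rfl
  refine ⟨{ J := J
            grp := gJ
            lf := ?_
            sub := ?_
            gen := ?_
            real := ?_ }, ?_⟩
  · apply lf_of_local
    intro T hT
    obtain ⟨a, ha, haT⟩ := covT T hT
    exact ⟨Lv a.J, inferInstance, ev a ha, haT, a.lf⟩
  · intro δ hδ
    obtain ⟨a, ha, hδa⟩ := hJ' δ hδ
    obtain ⟨V, hV⟩ := a.sub δ hδa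
    refine ⟨V.map (ev a ha), ?_⟩
    rw [Subgroup.coe_map, hV, ← hVp a ha, Set.image_preimage_eq_iff]
    exact hVr a ha δ hδa
  · intro δ hδ t
    apply gen_of_local _ _ _ (As_subset A J δ)
    intro T hT
    obtain ⟨a, ha, haT, hδa⟩ := covTδ T hT δ hδ
    exact ⟨Lv a.J, inferInstance, ev a ha, hevi a ha, haT, hVr a ha δ hδa, a.gen δ hδa t⟩
  · intro δ hδ t
    apply real_of_local _ _ _ (As_subset A J δ)
    intro T hT
    obtain ⟨a, ha, haT, hδa⟩ := covTδ T hT δ hδ
    exact ⟨Lv a.J, inferInstance, ev a ha, hevi a ha, haT, hVr a ha δ hδa, a.real δ hδa t⟩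
  · intro a ha
    exact ⟨hJ a ha, hgJ ⟨a, ha⟩⟩

theorem exists_ext [WellFoundedLT I] (hI : ∀ i : I, (Set.Iio i).Countable) (a : App A)
    (ha : a.J ≠ ⊤) : ∃ b : App A, a ≤ b ∧ ¬ b ≤ a := by
  classical
  -- the first new level
  have hex : ∃ i, i ∉ a.J := by
    by_contra h
    push Not at h
    exact ha (eq_top_iff.2 (fun i _ => h i))
  obtain ⟨γ, hγ, hmin⟩ := WellFounded.has_min (wellFounded_lt (α := I)) {i | i ∉ a.J} hex
  have hJγ : ∀ i, i ∈ a.J ↔ i < γ := by
    intro i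
    constructor
    · intro hi
      by_contra h
      exact hγ (a.J.lower (not_lt.1 h) hi)
    · intro hi
      by_contra h
      exact hmin i h hi
  have : Countable (Lv a.J) := by
    have h1 : Countable (Set.Iio γ) := (hI γ).to_subtype
    refine Function.Injective.countable
      (f := fun x : Lv a.J => (show Option (Set.Iio γ × ℕ) from
        match x with
        | ⟨none, _⟩ => none
        | ⟨some p, hp⟩ => some (⟨p.1, (hJγ p.1).1 (hp p rfl)⟩, p.2))) ?_
    rintro ⟨_ | ⟨i, m⟩, hx⟩ ⟨_ | ⟨j, n⟩, hy⟩ h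
    · rfl
    · simp at h
    · simp at h
    · simp only [Option.some.injEq, Prod.mk.injEq] at h
      obtain ⟨h1, rfl⟩ := h
      have h2 : i = j := congrArg Subtype.val h1
      subst h2
      rfl
  -- the tasks
  let τ : Type := {δ : I // δ ≤ γ} × Bool
  have hτ : Countable τ := by
    have h1 : Countable {δ : I // δ ≤ γ} := by
      have : (Set.Iic γ).Countable := by
        rw [← Set.Iio_insert]
        exact (hI γ).insert γ
      exact this.to_subtype
    infer_instance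
  have hVγ : Vs a.J γ = Set.univ := by
    ext x
    simp only [Set.mem_univ, iff_true]
    intro p hp
    exact (hJγ p.1).1 (x.2 p hp)
  have hV : ∀ t : τ, ∃ V : Subgroup (Lv a.J), (V : Set (Lv a.J)) = Vs a.J t.1.1 := by
    rintro ⟨⟨δ, hδ⟩, t⟩
    rcases hδ.lt_or_eq with h | h
    · exact a.sub δ ((hJγ δ).2 h)
    · subst h
      exact ⟨⊤, hVγ.symm⟩
  choose V hV using hV
  have hG : ∀ t : τ, Gen (ps t.2) (Lv a.J) (V t) (As A a.J t.1.1) := by
    rintro ⟨⟨δ, hδ⟩, t⟩
    rw [hV]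
    rcases hδ.lt_or_eq with h | h
    · exact a.gen δ ((hJγ δ).2 h) t
    · subst h
      change Gen (ps t) (Lv a.J) (Vs a.J δ) _
      rw [hVγ]
      exact gen_base (ps t) (ps_spec t) a.lf _
  have hR : ∀ t : τ, Real (ps t.2) (Lv a.J) (V t) (As A a.J t.1.1) := by
    rintro ⟨⟨δ, hδ⟩, t⟩
    rw [hV]
    rcases hδ.lt_or_eq with h | h
    · exact a.real δ ((hJγ δ).2 h) t
    · subst h
      change Real (ps t) (Lv a.J) (Vs a.J δ) _
      rw [hVγ]
      exact real_base (ps t) _
  obtain ⟨gK, inl', hinl', hLF, hGR⟩ := ext_step a.lf (τ := τ) (fun t => pk t.2)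
    (fun t => ps t.2) V (fun t => As A a.J t.1.1)
    (fun t => by rw [hV]; exact As_subset A a.J t.1.1) hG hR
  -- transport
  let J' : LowerSet I := LowerSet.Iic γ
  have hJJ' : a.J ≤ J' := fun i hi => ((hJγ i).1 hi).le
  let f : Lv a.J ⊕ ℕ → Lv J' := Sum.elim (linc hJJ') (fun n => ⟨some (γ, n), by
    intro p hp
    cases hp
    exact le_refl γ⟩)
  have hfinl : ∀ x, (f (Sum.inl x)).1 = x.1 := fun _ => rfl
  have hfinr : ∀ n, (f (Sum.inr n)).1 = some (γ, n) := fun _ => rfl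
  have hne : ∀ (x : Lv a.J) (n : ℕ), x.1 ≠ some (γ, n) := by
    intro x n h
    exact lt_irrefl γ ((hJγ γ).1 (x.2 (γ, n) h))
  have hf : Function.Bijective f := by
    constructor
    · rintro (x | m) (y | n) h
      · exact congrArg Sum.inl (linc_injective hJJ' h)
      · exact absurd (congrArg Subtype.val h) (hne x n)
      · exact absurd (congrArg Subtype.val h).symm (hne y m)
      · have h1 := congrArg Subtype.val h
        change some (γ, m) = some (γ, n) at h1
        simp only [Option.some.injEq, Prod.mk.injEq, true_and] at h1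
        rw [h1]
    · rintro ⟨_ | ⟨i, n⟩, hx⟩
      · exact ⟨Sum.inl ⟨none, fun p hp => by cases hp⟩, rfl⟩
      · have hi : i ≤ γ := hx (i, n) rfl
        rcases hi.lt_or_eq with h | h
        · refine ⟨Sum.inl ⟨some (i, n), ?_⟩, rfl⟩
          intro p hp
          cases hp
          exact (hJγ i).2 h
        · subst h
          exact ⟨Sum.inr n, rfl⟩
  let e : Lv a.J ⊕ ℕ ≃ Lv J' := Equiv.ofBijective f hf
  let gJ' : Group (Lv J') := e.symm.group
  let φ : Lv a.J ⊕ ℕ →* Lv J' := (Equiv.mulEquiv e.symm).symm.toMonoidHom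
  have hφ : ∀ x, φ x = f x := fun _ => rfl
  have hφi : Function.Injective φ := hf.1
  have hφr : ∀ x, x ∈ Set.range φ := hf.2
  have hVp : ∀ δ ≤ γ, φ ⁻¹' (Vs J' δ) = Sum.inl '' (Vs a.J δ) := by
    intro δ hδ
    ext x
    rcases x with x | n
    · constructor
      · intro h
        exact ⟨x, h, rfl⟩
      · rintro ⟨y, hy, h⟩
        cases h
        exact hy
    · constructor
      · intro h
        exact absurd (h (γ, n) rfl) (not_lt.2 hδ)
      · rintro ⟨y, hy, h⟩
        cases h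
  have hAp : ∀ δ ≤ γ, φ ⁻¹' (As A J' δ) = Sum.inl '' (As A a.J δ) := by
    intro δ hδ
    ext x
    rcases x with x | n
    · constructor
      · intro h
        exact ⟨x, h, rfl⟩
      · rintro ⟨y, hy, h⟩
        cases h
        exact hy
    · constructor
      · intro h
        exact absurd (h.1 (γ, n) rfl) (not_lt.2 hδ)
      · rintro ⟨y, hy, h⟩
        cases h
  refine ⟨{ J := J'
            grp := gJ'
            lf := ?_
            sub := ?_
            gen := ?_
            real := ?_ }, ⟨hJJ', ?_⟩, ?_⟩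
  · apply lf_of_local
    intro T hT
    exact ⟨_, gK, φ, fun x _ => hφr x, hLF⟩
  · intro δ hδ
    have h1 := hV (⟨δ, hδ⟩, true)
    refine ⟨((V (⟨δ, hδ⟩, true)).map inl').map φ, ?_⟩
    rw [Subgroup.coe_map, Subgroup.coe_map, h1]
    have h2 : inl' '' (Vs a.J δ) = Sum.inl '' (Vs a.J δ) := by
      congr 1
      funext x
      exact hinl' x
    change φ '' (inl' '' (Vs a.J δ)) = _
    rw [h2, ← hVp δ hδ, Set.image_preimage_eq_iff]
    exact fun x _ => hφr x
  · intro δ hδ t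
    apply gen_of_local _ _ _ (As_subset A J' δ)
    intro T hT
    refine ⟨_, gK, φ, hφi, fun x _ => hφr x, fun x _ => hφr x, ?_⟩
    rw [hVp δ hδ, hAp δ hδ, ← hV (⟨δ, hδ⟩, t)]
    exact (hGR (⟨δ, hδ⟩, t)).1
  · intro δ hδ t
    apply real_of_local _ _ _ (As_subset A J' δ)
    intro T hT
    refine ⟨_, gK, φ, hφi, fun x _ => hφr x, fun x _ => hφr x, ?_⟩
    rw [hVp δ hδ, hAp δ hδ, ← hV (⟨δ, hδ⟩, t)]
    exact (hGR (⟨δ, hδ⟩, t)).2
  · intro x y
    have h1 : ∀ z, linc hJJ' z = φ (inl' z) := by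
      intro z
      rw [hinl']
      rfl
    rw [h1, h1, h1, map_mul, map_mul]
  · rintro ⟨h, -⟩
    exact hγ (h (le_refl γ))

theorem exists_top [WellFoundedLT I] (hI : ∀ i : I, (Set.Iio i).Countable) :
    ∃ a : App A, a.J = ⊤ := by
  obtain ⟨m, hm⟩ := zorn_le (α := App A) (fun c hc => chain_bdd c hc)
  refine ⟨m, ?_⟩
  by_contra h
  obtain ⟨b, h1, h2⟩ := m.exists_ext hI h
  exact h2 (hm h1)

end App

end

end Pool.Agent.Lib.MP_b18e8e_lc_Diamond
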