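import Mathlib

/-!
# Types of tuples in groups

The type of a family `g : X → L` of elements of a group `L` is the set of words over `X` which
are trivial in `L`.
-/

set_option autoImplicit false

namespace Pool.Agent.Lib.MP_b18e8e_lc_Diamond

/-- The type of a family `g` of elements of a group. -/
def tp {X L : Type*} [Group L] (g : X → L) : Subgroup (FreeGroup X) := (FreeGroup.lift g).ker

section

variable {X Y L M : Type*} [Group L] [Group M]

theorem mem_tp {g : X → L} {w : FreeGroup X} : w ∈ tp g ↔ FreeGroup.lift g w = 1 := Iff.rfl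

theorem lift_map_comp (φ : L →* M) (g : X → L) (w : FreeGroup X) :
    FreeGroup.lift (fun x => φ (g x)) w = φ (FreeGroup.lift g w) := by
  have : FreeGroup.lift (fun x => φ (g x)) = φ.comp (FreeGroup.lift g) := by
    ext x; simp
  rw [this]; rfl

theorem tp_map (φ : L →* M) (hφ : Function.Injective φ) (g : X → L) :
    tp (fun x => φ (g x)) = tp g := by
  ext w
  rw [mem_tp, mem_tp, lift_map_comp]
  constructor
  · intro h
    exact hφ (by rw [h, map_one])
  · intro h
    rw [h, map_one]

theorem tp_comp (g : X → L) (h : Y → X) :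
    tp (fun y => g (h y)) = (tp g).comap (FreeGroup.map h) := by
  ext w
  rw [mem_tp, Subgroup.mem_comap, mem_tp]
  have : FreeGroup.lift (fun y => g (h y)) = (FreeGroup.lift g).comp (FreeGroup.map h) := by
    ext x; simp
  rw [this]; rfl

theorem tp_eq_comp {g : X → L} {g' : X → M} (e : tp g = tp g') (h : Y → X) :
    tp (fun y => g (h y)) = tp (fun y => g' (h y)) := by
  rw [tp_comp g h, tp_comp g' h, e]

theorem closure_range_eq (g : X → L) :
    Subgroup.closure (Set.range g) = (FreeGroup.lift g).range := by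
  apply le_antisymm
  · rw [Subgroup.closure_le]
    rintro _ ⟨x, rfl⟩
    exact ⟨FreeGroup.of x, by simp⟩
  · rintro _ ⟨w, rfl⟩
    induction w using FreeGroup.induction_on with
    | C1 => simp
    | of x =>
      simp only [FreeGroup.lift_apply_of]
      exact Subgroup.subset_closure ⟨x, rfl⟩
    | inv_of x h =>
      rw [map_inv]
      exact inv_mem h
    | mul x y hx hy =>
      rw [map_mul]
      exact mul_mem hx hy

/-- Families of the same type generate isomorphic subgroups. -/
theorem exists_hom_of_tp_eq {g : X → L} {g' : X → M} (e : tp g = tp g') :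
    ∃ θ : Subgroup.closure (Set.range g) →* M, Function.Injective θ ∧
      (∀ x, θ ⟨g x, Subgroup.subset_closure ⟨x, rfl⟩⟩ = g' x) ∧
      θ.range = Subgroup.closure (Set.range g') := by
  classical
  have hc := closure_range_eq g
  have key : ∀ a : Subgroup.closure (Set.range g), ∃ w : FreeGroup X,
      FreeGroup.lift g w = a := by
    rintro ⟨a, ha⟩
    rw [hc] at ha
    obtain ⟨w, hw⟩ := ha
    exact ⟨w, hw⟩
  choose w hw using key
  have well : ∀ u v : FreeGroup X, FreeGroup.lift g u = FreeGroup.lift g v →
      FreeGroup.lift g' u = FreeGroup.lift g' v := by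
    intro u v huv
    have : u * v⁻¹ ∈ tp g := by
      rw [mem_tp, map_mul, map_inv, huv, mul_inv_cancel]
    rw [e, mem_tp, map_mul, map_inv] at this
    exact mul_inv_eq_one.mp this
  have well' : ∀ u v : FreeGroup X, FreeGroup.lift g' u = FreeGroup.lift g' v →
      FreeGroup.lift g u = FreeGroup.lift g v := by
    intro u v huv
    have : u * v⁻¹ ∈ tp g' := by
      rw [mem_tp, map_mul, map_inv, huv, mul_inv_cancel]
    rw [← e, mem_tp, map_mul, map_inv] at this
    exact mul_inv_eq_one.mp this
  refine ⟨⟨⟨fun a => FreeGroup.lift g' (w a), ?_⟩, ?_⟩, ?_, ?_, ?_⟩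
  · rw [well (w 1) 1 (by rw [hw]; simp), map_one]
  · intro a b
    change FreeGroup.lift g' (w (a * b)) = FreeGroup.lift g' (w a) * FreeGroup.lift g' (w b)
    rw [← map_mul]
    exact well _ _ (by rw [hw, map_mul, hw, hw]; rfl)
  · intro a b hab
    change FreeGroup.lift g' (w a) = FreeGroup.lift g' (w b) at hab
    have := well' _ _ hab
    rw [hw, hw] at this
    exact Subtype.ext this
  · intro x
    change FreeGroup.lift g' (w _) = _
    rw [well _ (FreeGroup.of x) (by rw [hw]; simp)]
    simp
  · apply le_antisymm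
    · rintro _ ⟨a, rfl⟩
      rw [closure_range_eq]
      exact ⟨w a, rfl⟩
    · rw [Subgroup.closure_le]
      rintro _ ⟨x, rfl⟩
      refine ⟨⟨g x, Subgroup.subset_closure ⟨x, rfl⟩⟩, ?_⟩
      change FreeGroup.lift g' (w _) = _
      rw [well _ (FreeGroup.of x) (by rw [hw]; simp)]
      simp

/-- The set of types of `n`-tuples generating a finite subgroup is countable. -/
def finTypes (X : Type*) : Set (Subgroup (FreeGroup X)) :=
  {N | ∃ (q : ℕ) (f : X → Equiv.Perm (Fin q)), N = tp f}

theorem countable_finTypes (X : Type*) [Finite X] : (finTypes X).Countable := by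
  have : finTypes X = ⋃ q : ℕ, Set.range (fun f : X → Equiv.Perm (Fin q) => tp f) := by
    ext N
    simp only [finTypes, Set.mem_ofPred_eq, Set.mem_iUnion, Set.mem_range]
    exact ⟨fun ⟨q, f, h⟩ => ⟨q, f, h.symm⟩, fun ⟨q, f, h⟩ => ⟨q, f, h.symm⟩⟩
  rw [this]
  exact Set.countable_iUnion fun q => Set.countable_range _

theorem exists_perm_hom (Q : Type*) [Group Q] [Finite Q] :
    ∃ (q : ℕ) (φ : Q →* Equiv.Perm (Fin q)), Function.Injective φ := by
  obtain ⟨q, ⟨e⟩⟩ := Finite.exists_equiv_fin Q
  refine ⟨q, (MulEquiv.toMonoidHom e.permCongrHom).comp (MulAction.toPermHom Q Q), ?_⟩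
  intro a b hab
  have h1 : MulAction.toPermHom Q Q a = MulAction.toPermHom Q Q b :=
    e.permCongrHom.injective hab
  have h2 := congrArg (fun f : Equiv.Perm Q => f 1) h1
  simpa using h2

theorem tp_mem_finTypes (g : X → L) (h : (Subgroup.closure (Set.range g) : Set L).Finite) :
    tp g ∈ finTypes X := by
  have : Finite (Subgroup.closure (Set.range g)) := h.to_subtype
  obtain ⟨q, φ, hφ⟩ := exists_perm_hom (Subgroup.closure (Set.range g))
  refine ⟨q, fun x => φ ⟨g x, Subgroup.subset_closure ⟨x, rfl⟩⟩, ?_⟩
  rw [tp_map φ hφ]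
  exact tp_map (Subgroup.closure (Set.range g)).subtype (Subgroup.subtype_injective _)
    (fun x => (⟨g x, Subgroup.subset_closure ⟨x, rfl⟩⟩ : Subgroup.closure (Set.range g)))

end

end Pool.Agent.Lib.MP_b18e8e_lc_Diamond
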