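import Pool.Agent.Lib.MP_b18e8e_lc_Diamond.Tp

/-!
# Permutational wreath products with `ZMod 4`
-/

set_option autoImplicit false
set_option linter.unusedSectionVars false

namespace Pool.Agent.Lib.MP_b18e8e_lc_Diamond

/-- The permutational wreath product of `ZMod 4` with the group `P` acting on `X`. -/
@[ext]
structure Wr (P X : Type*) where
  /-- the base part -/
  l : X →₀ ZMod 4
  /-- the top part -/
  r : P

namespace Wr

variable {P X : Type*} [Group P] [MulAction P X]

noncomputable instance : Mul (Wr P X) :=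
  ⟨fun a b => ⟨a.l + Finsupp.mapDomain (a.r • ·) b.l, a.r * b.r⟩⟩

noncomputable instance : One (Wr P X) := ⟨⟨0, 1⟩⟩

noncomputable instance : Inv (Wr P X) :=
  ⟨fun a => ⟨-(Finsupp.mapDomain (a.r⁻¹ • ·) a.l), a.r⁻¹⟩⟩

theorem mul_l (a b : Wr P X) : (a * b).l = a.l + Finsupp.mapDomain (a.r • ·) b.l := rfl
theorem mul_r (a b : Wr P X) : (a * b).r = a.r * b.r := rfl
theorem one_l : (1 : Wr P X).l = 0 := rfl
theorem one_r : (1 : Wr P X).r = 1 := rfl
theorem inv_l (a : Wr P X) : (a⁻¹).l = -(Finsupp.mapDomain (a.r⁻¹ • ·) a.l) := rfl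
theorem inv_r (a : Wr P X) : (a⁻¹).r = a.r⁻¹ := rfl

theorem mapDomain_smul_smul (p q : P) (f : X →₀ ZMod 4) :
    Finsupp.mapDomain (p • ·) (Finsupp.mapDomain (q • ·) f) =
      Finsupp.mapDomain ((p * q) • ·) f := by
  rw [← Finsupp.mapDomain_comp]
  congr 1
  funext x
  simp [mul_smul]

theorem mapDomain_one_smul (f : X →₀ ZMod 4) :
    Finsupp.mapDomain ((1 : P) • ·) f = f := by
  have : (fun x : X => (1 : P) • x) = id := by
    funext x; simp
  rw [this, Finsupp.mapDomain_id]

noncomputable instance : Group (Wr P X) :=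
  Group.ofLeftAxioms
    (by
      intro a b c
      ext1
      · simp only [mul_l, mul_r, Finsupp.mapDomain_add, mapDomain_smul_smul, add_assoc]
      · simp only [mul_r, mul_assoc])
    (by
      intro a
      ext1
      · simp only [mul_l, one_l, one_r, mapDomain_one_smul, zero_add]
      · simp only [mul_r, one_r, one_mul])
    (by
      intro a
      ext1
      · simp only [mul_l, inv_l, inv_r, one_l, neg_add_cancel]
      · simp only [mul_r, inv_r, one_r, inv_mul_cancel])

/-- The embedding of the top group. -/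
noncomputable def inr : P →* Wr P X where
  toFun p := ⟨0, p⟩
  map_one' := rfl
  map_mul' p q := by
    ext1
    · simp only [mul_l, Finsupp.mapDomain_zero, add_zero]
    · rfl

theorem inr_l (p : P) : (inr p : Wr P X).l = 0 := rfl
theorem inr_r (p : P) : (inr p : Wr P X).r = p := rfl

theorem inr_injective : Function.Injective (inr : P →* Wr P X) := by
  intro a b h
  exact congrArg Wr.r h

/-- The base element `c` at the point `x`. -/
noncomputable def vv (x : X) (c : ZMod 4) : Wr P X := ⟨Finsupp.single x c, 1⟩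

theorem vv_mul (x : X) (c d : ZMod 4) : (vv x c * vv x d : Wr P X) = vv x (c + d) := by
  ext1
  · simp only [mul_l, vv, mapDomain_one_smul, Finsupp.single_add]
  · simp [mul_r, vv]

theorem vv_zero (x : X) : (vv x 0 : Wr P X) = 1 := by
  ext1
  · simp [vv, one_l]
  · rfl

theorem vv_inv (x : X) (c : ZMod 4) : (vv x c : Wr P X)⁻¹ = vv x (-c) := by
  rw [inv_eq_iff_mul_eq_one, vv_mul, add_neg_cancel, vv_zero]

/-- the conjugate of `y` by the element `c` at `x`. -/
noncomputable def cj (x : X) (c : ZMod 4) (y : P) : Wr P X := vv x c * inr y * (vv x c)⁻¹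

theorem cj_l (x : X) (c : ZMod 4) (y : P) :
    (cj x c y).l = Finsupp.single x c - Finsupp.single (y • x) c := by
  rw [cj, vv_inv]
  simp only [mul_l, mul_r, vv, inr_l, inr_r, Finsupp.mapDomain_zero, add_zero, one_mul,
    Finsupp.mapDomain_single]
  rw [Finsupp.single_neg, sub_eq_add_neg]

theorem cj_r (x : X) (c : ZMod 4) (y : P) : (cj x c y).r = y := by
  rw [cj, vv_inv]
  simp [mul_r, vv, inr_r]

theorem cj_zero (x : X) (y : P) : cj x 0 y = inr y := by
  rw [cj, vv_zero]; simp

theorem cj_fix (x : X) (c : ZMod 4) (y : P) (h : y • x = x) : cj x c y = inr y := by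
  ext1
  · rw [cj_l, h, sub_self, inr_l]
  · rw [cj_r, inr_r]

theorem vv_conj_cj (x : X) (c d : ZMod 4) (y : P) :
    vv x c * cj x d y * (vv x c)⁻¹ = cj x (c + d) y := by
  rw [cj, cj, ← vv_mul]
  group

/-- Functoriality of the wreath product. -/
noncomputable def map {P₂ X₂ : Type*} [Group P₂] [MulAction P₂ X₂] (φ : P →* P₂) (i : X → X₂)
    (c : ZMod 4) (h : ∀ (p : P) (x : X), i (p • x) = φ p • i x) : Wr P X →* Wr P₂ X₂ where
  toFun a := ⟨c • Finsupp.mapDomain i a.l, φ a.r⟩
  map_one' := by
    ext1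
    · simp [one_l]
    · simp [one_r]
  map_mul' a b := by
    ext1
    · simp only [mul_l, Finsupp.mapDomain_add, smul_add]
      congr 1
      rw [← Finsupp.mapDomain_comp, Finsupp.mapDomain_smul, ← Finsupp.mapDomain_comp]
      congr 2
      funext x
      exact h _ _
    · simp [mul_r]

theorem map_cj {P₂ X₂ : Type*} [Group P₂] [MulAction P₂ X₂] (φ : P →* P₂) (i : X → X₂)
    (c : ZMod 4) (h : ∀ (p : P) (x : X), i (p • x) = φ p • i x) (x : X) (d : ZMod 4) (y : P) :
    map φ i c h (cj x d y) = cj (i x) (c * d) (φ y) := by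
  ext1
  · change c • Finsupp.mapDomain i (cj x d y).l = _
    rw [cj_l, cj_l, sub_eq_add_neg, ← Finsupp.single_neg, Finsupp.mapDomain_add,
      Finsupp.mapDomain_single, Finsupp.mapDomain_single, smul_add, h]
    simp [sub_eq_add_neg]
  · change φ (cj x d y).r = _
    rw [cj_r, cj_r]

theorem map_inr {P₂ X₂ : Type*} [Group P₂] [MulAction P₂ X₂] (φ : P →* P₂) (i : X → X₂)
    (c : ZMod 4) (h : ∀ (p : P) (x : X), i (p • x) = φ p • i x) (y : P) :
    map φ i c h (inr y) = inr (φ y) := by
  ext1
  · change c • Finsupp.mapDomain i (inr y : Wr P X).l = _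
    rw [inr_l, inr_l]; simp
  · rfl

theorem map_injective {P₂ X₂ : Type*} [Group P₂] [MulAction P₂ X₂] (φ : P →* P₂) (i : X → X₂)
    (h : ∀ (p : P) (x : X), i (p • x) = φ p • i x) (hφ : Function.Injective φ)
    (hi : Function.Injective i) : Function.Injective (map φ i 1 h) := by
  intro a b hab
  have h1 := congrArg Wr.l hab
  have h2 := congrArg Wr.r hab
  change (1 : ZMod 4) • Finsupp.mapDomain i a.l = (1 : ZMod 4) • Finsupp.mapDomain i b.l at h1
  change φ a.r = φ b.r at h2
  rw [one_smul, one_smul] at h1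
  ext1
  · exact Finsupp.mapDomain_injective hi h1
  · exact hφ h2

instance [Finite P] [Finite X] : Finite (Wr P X) := by
  have : Finite (X → ZMod 4) := inferInstance
  refine Finite.of_injective (fun a : Wr P X => ((a.l : X → ZMod 4), a.r)) ?_
  intro a b h
  simp only [Prod.mk.injEq, DFunLike.coe_fn_eq] at h
  exact Wr.ext h.1 h.2

end Wr

end Pool.Agent.Lib.MP_b18e8e_lc_Diamond
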